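import Pool.Agent.NGN.Defs

/-!
# The fan of triangles of a convex polygon

MP_b1ddb4_an, project NGN.  For a strictly convex positively oriented polygon with `0` inside: the
open cones over the sides are disjoint, the closed cones cover the plane, and the triangles
`0, P i, P (i + 1)` cover the polygon.
-/

set_option autoImplicit false

noncomputable section

namespace Pool.Agent.NGN

open Filter Topology Set

/-- Closed cone. -/
def Cn (P Q : ℂ) : Set ℂ := {z | 0 ≤ cr P z ∧ 0 ≤ cr z Q}

/-- Open cone. -/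
def OCn (P Q : ℂ) : Set ℂ := {z | 0 < cr P z ∧ 0 < cr z Q}

/-- The closed triangle `0, P, Q`. -/
def Tr (P Q : ℂ) : Set ℂ := {z | 0 ≤ cr P z ∧ 0 ≤ cr z Q ∧ cr P z + cr z Q ≤ cr P Q}

/-- The open triangle `0, P, Q`. -/
def OTr (P Q : ℂ) : Set ℂ := {z | 0 < cr P z ∧ 0 < cr z Q ∧ cr P z + cr z Q < cr P Q}

theorem cr_swap (a b : ℂ) : cr a b = - cr b a := by
  unfold cr; ring

theorem cr_self (a : ℂ) : cr a a = 0 := by
  unfold cr; ring

theorem cr_add_right (a b c : ℂ) : cr a (b + c) = cr a b + cr a c := by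
  simp only [cr, Complex.add_re, Complex.add_im]; ring

theorem cr_add_left (a b c : ℂ) : cr (a + b) c = cr a c + cr b c := by
  simp only [cr, Complex.add_re, Complex.add_im]; ring

theorem cr_sub_right (a b c : ℂ) : cr a (b - c) = cr a b - cr a c := by
  simp only [cr, Complex.sub_re, Complex.sub_im]; ring

theorem cr_sub_left (a b c : ℂ) : cr (a - b) c = cr a c - cr b c := by
  simp only [cr, Complex.sub_re, Complex.sub_im]; ring

theorem cr_smul_left (r : ℝ) (x y : ℂ) : cr ((r : ℂ) * x) y = r * cr x y := by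
  simp only [cr, Complex.mul_re, Complex.mul_im, Complex.ofReal_re, Complex.ofReal_im]
  ring

theorem cr_smul_right (r : ℝ) (x y : ℂ) : cr x ((r : ℂ) * y) = r * cr x y := by
  simp only [cr, Complex.mul_re, Complex.mul_im, Complex.ofReal_re, Complex.ofReal_im]
  ring

theorem cr_zero_left (x : ℂ) : cr 0 x = 0 := by simp [cr]

theorem cr_zero_right (x : ℂ) : cr x 0 = 0 := by simp [cr]

theorem Tr_sub_Cn (P Q : ℂ) : Tr P Q ⊆ Cn P Q := fun _ hz => ⟨hz.1, hz.2.1⟩

theorem continuous_cr1 (P : ℂ) : Continuous fun z => cr P z := by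
  unfold cr; fun_prop

theorem continuous_cr2 (Q : ℂ) : Continuous fun z => cr z Q := by
  unfold cr; fun_prop

theorem isOpen_OCn (P Q : ℂ) : IsOpen (OCn P Q) :=
  (isOpen_lt continuous_const (continuous_cr1 P)).inter
    (isOpen_lt continuous_const (continuous_cr2 Q))

theorem isOpen_OTr (P Q : ℂ) : IsOpen (OTr P Q) :=
  (isOpen_lt continuous_const (continuous_cr1 P)).inter
    ((isOpen_lt continuous_const (continuous_cr2 Q)).inter
      (isOpen_lt ((continuous_cr1 P).add (continuous_cr2 Q)) continuous_const))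

theorem isClosed_Tr (P Q : ℂ) : IsClosed (Tr P Q) :=
  (isClosed_le continuous_const (continuous_cr1 P)).inter
    ((isClosed_le continuous_const (continuous_cr2 Q)).inter
      (isClosed_le ((continuous_cr1 P).add (continuous_cr2 Q)) continuous_const))

theorem cr_decomp (P Q z : ℂ) :
    ((cr P Q : ℝ) : ℂ) * z = ((cr z Q : ℝ) : ℂ) * P + ((cr P z : ℝ) : ℂ) * Q := by
  apply Complex.ext
  · simp only [cr, Complex.add_re, Complex.mul_re, Complex.ofReal_re, Complex.ofReal_im]
    ring
  · simp only [cr, Complex.add_im, Complex.mul_im, Complex.ofReal_re, Complex.ofReal_im]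
    ring

theorem cr_decomp' {P Q : ℂ} (h : 0 < cr P Q) (z : ℂ) :
    z = ((cr z Q / cr P Q : ℝ) : ℂ) * P + ((cr P z / cr P Q : ℝ) : ℂ) * Q := by
  have hc : ((cr P Q : ℝ) : ℂ) ≠ 0 := by exact_mod_cast h.ne'
  have hd := cr_decomp P Q z
  push_cast
  field_simp
  linear_combination hd

theorem mem_Cn_add {P Q z : ℂ} (h : 0 < cr P Q) (hz : z ∈ Cn P Q) {e : ℝ} (he : 0 < e) :
    z + (e : ℂ) * (P + Q) ∈ OCn P Q := by
  have e1 : cr P (z + (e : ℂ) * (P + Q)) = cr P z + e * cr P Q := by
    rw [cr_add_right, cr_smul_right, cr_add_right, cr_self]; ring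
  have e2 : cr (z + (e : ℂ) * (P + Q)) Q = cr z Q + e * cr P Q := by
    rw [cr_add_left, cr_smul_left, cr_add_left, cr_self]; ring
  have h1 := mul_pos he h
  exact ⟨by rw [e1]; linarith [hz.1], by rw [e2]; linarith [hz.2]⟩

/-- A point of a closed cone lies in the open cone or on one of the two rays. -/
theorem Cn_cases {P Q z : ℂ} (h : 0 < cr P Q) (hz : z ∈ Cn P Q) :
    z ∈ OCn P Q ∨ (∃ t : ℝ, 0 ≤ t ∧ z = (t : ℂ) * P) ∨ (∃ t : ℝ, 0 ≤ t ∧ z = (t : ℂ) * Q) := by
  have hd := cr_decomp' h z
  rcases hz.1.eq_or_lt with h1 | h1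
  · right; left
    refine ⟨cr z Q / cr P Q, div_nonneg hz.2 h.le, ?_⟩
    rw [← h1] at hd
    simpa using hd
  · rcases hz.2.eq_or_lt with h2 | h2
    · right; right
      refine ⟨cr P z / cr P Q, div_nonneg hz.1 h.le, ?_⟩
      rw [← h2] at hd
      simpa using hd
    · left; exact ⟨h1, h2⟩

/-- The distance function of the line `P Q` (times the length): `f(z) = cr (Q - P) (z - P)`. -/
theorem side_fun (P Q z : ℂ) : cr (Q - P) (z - P) = cr P Q - cr P z - cr z Q := by
  simp only [cr, Complex.sub_re, Complex.sub_im]; ring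

section fan

variable {n : ℕ} {P : ZMod n → ℂ}

theorem zmod_ne_succ (hn : 3 ≤ n) (i : ZMod n) : i ≠ i + 1 := by
  intro h
  have h1 : (1 : ZMod n) = 0 := by
    have := congrArg (fun x => x - i) h
    simpa using this.symm
  have : (1 : ℕ) < n := by omega
  have h2 : ((1 : ℕ) : ZMod n) = 0 := by simpa using h1
  rw [ZMod.natCast_eq_zero_iff] at h2
  have := Nat.le_of_dvd (by norm_num) h2
  omega

theorem zmod_ne_succ2 (hn : 3 ≤ n) (i : ZMod n) : i ≠ i + 1 + 1 := by
  intro h
  have h1 : (1 : ZMod n) + 1 = 0 := by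
    have h3 := congrArg (fun x => x - i) h
    simp only [sub_self] at h3
    rw [h3]; ring
  have h2 : ((2 : ℕ) : ZMod n) = 0 := by
    push_cast
    rw [← one_add_one_eq_two]; exact h1
  rw [ZMod.natCast_eq_zero_iff] at h2
  have := Nat.le_of_dvd (by norm_num) h2
  omega

/-- All vertices are on the left side of the line of a side. -/
theorem Cvx.left_nonneg (hP : Cvx P) (i k : ZMod n) : 0 ≤ cr (P (i + 1) - P i) (P k - P i) := by
  by_cases h1 : k = i
  · rw [h1, sub_self, cr_zero_right]
  · by_cases h2 : k = i + 1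
    · rw [h2, cr_self]
    · exact (hP.left i k h1 h2).le

/-- Comparison of the gauge functions of two sides on the cone over the second. -/
theorem Cvx.gauge_lt (hn : 3 ≤ n) (hP : Cvx P) {i j : ZMod n} (hij : i ≠ j) {x : ℂ}
    (hx : x ∈ OCn (P j) (P (j + 1))) :
    (cr (P i) x + cr x (P (i + 1))) * cr (P j) (P (j + 1)) <
      (cr (P j) x + cr x (P (j + 1))) * cr (P i) (P (i + 1)) := by
  have hA : 0 < cr x (P (j + 1)) := hx.2
  have hB : 0 < cr (P j) x := hx.1
  have hd := cr_decomp (P j) (P (j + 1)) x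
  have e : (cr (P i) x + cr x (P (i + 1))) * cr (P j) (P (j + 1)) =
      cr x (P (j + 1)) * (cr (P i) (P j) + cr (P j) (P (i + 1))) +
      cr (P j) x * (cr (P i) (P (j + 1)) + cr (P (j + 1)) (P (i + 1))) := by
    have h1 : cr (P j) (P (j + 1)) * cr (P i) x =
        cr x (P (j + 1)) * cr (P i) (P j) + cr (P j) x * cr (P i) (P (j + 1)) := by
      rw [← cr_smul_right, hd, cr_add_right, cr_smul_right, cr_smul_right]
    have h2 : cr (P j) (P (j + 1)) * cr x (P (i + 1)) =
        cr x (P (j + 1)) * cr (P j) (P (i + 1)) + cr (P j) x * cr (P (j + 1)) (P (i + 1)) := by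
      rw [← cr_smul_left, hd, cr_add_left, cr_smul_left, cr_smul_left]
    linear_combination h1 + h2
  have k1 := hP.left_nonneg i j
  have k2 := hP.left_nonneg i (j + 1)
  rw [side_fun] at k1 k2
  rw [e]
  have h3 : cr (P i) (P j) + cr (P j) (P (i + 1)) < cr (P i) (P (i + 1)) ∨
      cr (P i) (P (j + 1)) + cr (P (j + 1)) (P (i + 1)) < cr (P i) (P (i + 1)) := by
    by_cases h1 : j = i + 1
    · right
      have := hP.left i (j + 1) (by rw [h1]; exact (zmod_ne_succ2 hn i).symm)
        (by rw [h1]; exact (zmod_ne_succ hn (i + 1)).symm)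
      rw [side_fun] at this
      linarith
    · left
      have := hP.left i j hij.symm h1
      rw [side_fun] at this
      linarith
  rcases h3 with h3 | h3 <;> nlinarith

/-- Open cones over different sides are disjoint. -/
theorem Cvx.disj (hn : 3 ≤ n) (hP : Cvx P) {i j : ZMod n} (hij : i ≠ j) :
    Disjoint (OCn (P i) (P (i + 1))) (OCn (P j) (P (j + 1))) := by
  rw [Set.disjoint_left]
  intro x hi hj
  have h1 := hP.gauge_lt hn hij hj
  have h2 := hP.gauge_lt hn hij.symm hi
  linarith

/-- The sum of the side vectors is zero; so some side goes clockwise as seen from `z`. -/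
theorem exists_neg [NeZero n] (hn : 3 ≤ n) (hP : Cvx P) {z : ℂ} (hz : z ≠ 0) :
    ∃ i, cr (P (i + 1) - P i) z < 0 := by
  by_contra hcon
  push Not at hcon
  have hsum : ∑ i, cr (P (i + 1) - P i) z = 0 := by
    have h1 : ∑ i, cr (P (i + 1)) z = ∑ i, cr (P i) z :=
      Equiv.sum_comp (Equiv.addRight (1 : ZMod n)) (fun i => cr (P i) z)
    simp only [cr_sub_left]
    rw [Finset.sum_sub_distrib, h1, sub_self]
  have h0 : ∀ i, cr (P (i + 1) - P i) z = 0 := fun i =>
    (Finset.sum_eq_zero_iff_of_nonneg fun i _ => hcon i).1 hsum i (Finset.mem_univ i)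
  -- two consecutive sides are parallel to `z`
  have h1 := h0 0
  have h2 := h0 (0 + 1)
  have h3 := hP.left 0 (0 + 1 + 1) (zmod_ne_succ2 hn 0).symm (zmod_ne_succ hn (0 + 1)).symm
  have h4 : 0 < cr (P (0 + 1) - P 0) (P (0 + 1 + 1) - P (0 + 1)) := by
    have : cr (P (0 + 1) - P 0) (P (0 + 1 + 1) - P 0) =
        cr (P (0 + 1) - P 0) (P (0 + 1 + 1) - P (0 + 1)) := by
      simp only [cr, Complex.sub_re, Complex.sub_im]; ring
    rwa [this] at h3
  have hd := cr_decomp (P (0 + 1) - P 0) (P (0 + 1 + 1) - P (0 + 1)) z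
  rw [h1, cr_swap z, h2] at hd
  have hc : ((cr (P (0 + 1) - P 0) (P (0 + 1 + 1) - P (0 + 1)) : ℝ) : ℂ) ≠ 0 := by
    exact_mod_cast h4.ne'
  have : z = 0 := by
    have h5 : ((cr (P (0 + 1) - P 0) (P (0 + 1 + 1) - P (0 + 1)) : ℝ) : ℂ) * z = 0 := by
      rw [hd]; simp
    exact (mul_eq_zero.1 h5).resolve_left hc
  exact hz this

/-- The closed cones cover the plane. -/
theorem Cvx.cover [NeZero n] (hn : 3 ≤ n) (hP : Cvx P) (z : ℂ) :
    ∃ i, z ∈ Cn (P i) (P (i + 1)) := by
  by_cases hz : z = 0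
  · refine ⟨0, ?_, ?_⟩
    · rw [hz, cr_zero_right]
    · rw [hz, cr_zero_left]
  -- the gauge `L_i(z) / c_i`, maximal
  set G : ZMod n → ℝ := fun i => (cr (P i) z + cr z (P (i + 1))) / cr (P i) (P (i + 1)) with hG
  obtain ⟨i, -, hi⟩ := Finset.exists_max_image (Finset.univ : Finset (ZMod n)) G
    ⟨0, Finset.mem_univ _⟩
  have hGi : 0 < G i := by
    obtain ⟨j, hj⟩ := exists_neg hn hP hz
    have h1 : 0 < G j := by
      simp only [hG]
      apply div_pos _ (hP.pos j)
      have : cr (P (j + 1) - P j) z = - (cr (P j) z + cr z (P (j + 1))) := by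
        rw [cr_sub_left, cr_swap z (P (j + 1))]; ring
      linarith
    exact lt_of_lt_of_le h1 (hi j (Finset.mem_univ j))
  set s : ℝ := (G i)⁻¹ with hs
  have hs0 : 0 < s := inv_pos.2 hGi
  -- `y = s z` lies on the line of the side `i` and on the left side of all lines
  have hy : ∀ j, 0 ≤ cr (P (j + 1) - P j) ((s : ℂ) * z - P j) := by
    intro j
    rw [side_fun, cr_smul_right, cr_smul_left]
    have h1 : G j ≤ G i := hi j (Finset.mem_univ j)
    have h2 : s * G j ≤ 1 := by
      calc s * G j ≤ s * G i := mul_le_mul_of_nonneg_left h1 hs0.le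
        _ = 1 := by rw [hs]; field_simp
    have h3 : s * (cr (P j) z + cr z (P (j + 1))) ≤ cr (P j) (P (j + 1)) := by
      have h4 : cr (P j) z + cr z (P (j + 1)) = G j * cr (P j) (P (j + 1)) := by
        simp only [hG]
        have := (hP.pos j).ne'
        field_simp
      rw [h4, ← mul_assoc]
      have := hP.pos j
      nlinarith
    linarith
  have hyi : cr (P (i + 1) - P i) ((s : ℂ) * z - P i) = 0 := by
    rw [side_fun, cr_smul_right, cr_smul_left]
    have h4 : cr (P i) z + cr z (P (i + 1)) = G i * cr (P i) (P (i + 1)) := by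
      simp only [hG]
      have := (hP.pos i).ne'
      field_simp
    have h5 : s * G i = 1 := by rw [hs]; field_simp
    linear_combination (-s) * h4 - cr (P i) (P (i + 1)) * h5
  -- `y = a P_i + b P_{i+1}` with `a + b = 1`
  have hpi := hP.pos i
  set y : ℂ := (s : ℂ) * z with hyd
  set a : ℝ := cr y (P (i + 1)) / cr (P i) (P (i + 1)) with ha
  set b : ℝ := cr (P i) y / cr (P i) (P (i + 1)) with hb
  have hyc : y = (a : ℂ) * P i + (b : ℂ) * P (i + 1) := cr_decomp' hpi y
  have hab : a + b = 1 := by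
    rw [side_fun] at hyi
    rw [ha, hb, ← add_div, div_eq_one_iff_eq hpi.ne']
    linarith
  have comb : ∀ A B X Y : ℂ, cr (B - A) ((a : ℂ) * X + (b : ℂ) * Y - A) =
      a * cr (B - A) (X - A) + b * cr (B - A) (Y - A) := by
    intro A B X Y
    have hb' : b = 1 - a := by linarith
    rw [hb']
    simp only [cr, Complex.sub_re, Complex.sub_im, Complex.add_re, Complex.add_im, Complex.mul_re,
      Complex.mul_im, Complex.ofReal_re, Complex.ofReal_im]
    ring
  have hb0 : 0 ≤ b := by
    -- side `i - 1`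
    obtain ⟨m, rfl⟩ : ∃ m, i = m + 1 := ⟨i - 1, by ring⟩
    have h1 := hy m
    rw [hyc, comb, cr_self, mul_zero, zero_add] at h1
    have h2 : 0 < cr (P (m + 1) - P m) (P (m + 1 + 1) - P m) :=
      hP.left m (m + 1 + 1) (zmod_ne_succ2 hn m).symm (zmod_ne_succ hn (m + 1)).symm
    exact nonneg_of_mul_nonneg_left h1 h2
  have ha0 : 0 ≤ a := by
    -- side `i + 1`
    have h1 := hy (i + 1)
    rw [hyc, comb, sub_self, cr_zero_right, mul_zero, add_zero] at h1
    have h2 : 0 < cr (P (i + 1 + 1) - P (i + 1)) (P i - P (i + 1)) :=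
      hP.left (i + 1) i (zmod_ne_succ hn i) (zmod_ne_succ2 hn i)
    exact nonneg_of_mul_nonneg_left h1 h2
  refine ⟨i, ?_, ?_⟩
  · have h1 : 0 ≤ cr (P i) y := by
      have : cr (P i) y = b * cr (P i) (P (i + 1)) := by
        rw [hb]; field_simp
      rw [this]; positivity
    rw [hyd, cr_smul_right] at h1
    exact nonneg_of_mul_nonneg_right h1 hs0
  · have h1 : 0 ≤ cr y (P (i + 1)) := by
      have : cr y (P (i + 1)) = a * cr (P i) (P (i + 1)) := by
        rw [ha]; field_simp
      rw [this]; positivity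
    rw [hyd, cr_smul_left] at h1
    exact nonneg_of_mul_nonneg_right h1 hs0

/-- The hull lies on the left side of every side. -/
theorem Cvx.hull_left (hP : Cvx P) {z : ℂ} (hz : z ∈ convexHull ℝ (range P)) (i : ZMod n) :
    cr (P i) z + cr z (P (i + 1)) ≤ cr (P i) (P (i + 1)) := by
  have hconv : Convex ℝ {z : ℂ | cr (P i) z + cr z (P (i + 1)) ≤ cr (P i) (P (i + 1))} := by
    intro x hx y hy a b ha hb hab
    have hx' : cr (P i) x + cr x (P (i + 1)) ≤ cr (P i) (P (i + 1)) := hx
    have hy' : cr (P i) y + cr y (P (i + 1)) ≤ cr (P i) (P (i + 1)) := hy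
    show cr (P i) (a • x + b • y) + cr (a • x + b • y) (P (i + 1)) ≤ cr (P i) (P (i + 1))
    rw [Complex.real_smul, Complex.real_smul, cr_add_right, cr_add_left, cr_smul_right,
      cr_smul_right, cr_smul_left, cr_smul_left]
    have h1 := mul_le_mul_of_nonneg_left hx' ha
    have h2 := mul_le_mul_of_nonneg_left hy' hb
    have h3 : a * cr (P i) (P (i + 1)) + b * cr (P i) (P (i + 1)) = cr (P i) (P (i + 1)) := by
      rw [← add_mul, hab, one_mul]
    linarith
  have hsub : range P ⊆ {z : ℂ | cr (P i) z + cr z (P (i + 1)) ≤ cr (P i) (P (i + 1))} := by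
    rintro _ ⟨k, rfl⟩
    have := hP.left_nonneg i k
    rw [side_fun] at this
    show cr (P i) (P k) + cr (P k) (P (i + 1)) ≤ cr (P i) (P (i + 1))
    linarith
  exact convexHull_min hsub hconv hz

/-- The triangles over the sides cover the polygon. -/
theorem Cvx.hull_sub [NeZero n] (hn : 3 ≤ n) (hP : Cvx P) :
    convexHull ℝ (range P) ⊆ ⋃ i, Tr (P i) (P (i + 1)) := by
  intro z hz
  obtain ⟨i, hi⟩ := hP.cover hn z
  exact mem_iUnion.2 ⟨i, hi.1, hi.2, hP.hull_left hz i⟩

/-- Two vertices on the same ray coincide. -/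
theorem Cvx.ray_unique (hP : Cvx P) {a b : ZMod n} {s t : ℝ} (hs : 0 < s)
    (ht : 0 < t) (h : (s : ℂ) * P a = (t : ℂ) * P b) : a = b := by
  by_contra hab
  -- both `P a`, `P b` lie on the left of every side; compare the gauges of the sides `a`, `b`
  have ka := hP.left_nonneg a b
  have ka' := hP.left_nonneg b a
  have hkey : ∀ {a b : ZMod n} {s t : ℝ}, a ≠ b → 0 < s → 0 < t →
      (s : ℂ) * P a = (t : ℂ) * P b → s < t ∨ b = a + 1 := by
    intro a b s t hab hs ht h
    by_cases h1 : b = a + 1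
    · right; exact h1
    · left
      have h2 := hP.left a b (Ne.symm hab) h1
      rw [side_fun] at h2
      have e1 : t * cr (P a) (P b) = 0 := by
        rw [← cr_smul_right, ← h, cr_smul_right, cr_self, mul_zero]
      have e2 : t * cr (P b) (P (a + 1)) = s * cr (P a) (P (a + 1)) := by
        rw [← cr_smul_left, ← h, cr_smul_left]
      have h3 : cr (P a) (P b) = 0 := by
        rcases mul_eq_zero.1 e1 with h5 | h5
        · exact absurd h5 ht.ne'
        · exact h5
      rw [h3] at h2
      have h4 := hP.pos a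
      by_contra h5
      push Not at h5
      nlinarith
  have hnot : ∀ {a b : ZMod n} {s t : ℝ}, 0 < s → 0 < t →
      (s : ℂ) * P a = (t : ℂ) * P b → b ≠ a + 1 := by
    intro a b s t hs ht h h1
    have e1 : t * cr (P a) (P b) = 0 := by
      rw [← cr_smul_right, ← h, cr_smul_right, cr_self, mul_zero]
    have h4 := hP.pos a
    rw [h1] at e1
    nlinarith [mul_pos ht h4]
  have h1 := (hkey hab hs ht h).resolve_right (hnot hs ht h)
  have h2 := (hkey (Ne.symm hab) ht hs h.symm).resolve_right (hnot ht hs h.symm)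
  linarith

end fan

end Pool.Agent.NGN
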