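import Pool.Agent.NGN.C.Side

/-!
# Fubini on the sector; the divergence of a field of the class `VV` has integral zero

MP_b1ddb4_an, project NGN, part C.
-/

set_option autoImplicit false

noncomputable section

namespace Pool.Agent.NGN

open Filter Topology Set MeasureTheory

theorem sec_integrableOn {τ : ℝ} (hτ : 0 < τ) {F : ℂ → ℝ} (hF : Continuous F) :
    IntegrableOn F (sec τ) :=
  (hF.continuousOn.integrableOn_compact (isCompact_T0 hτ)).mono_set (sec_sub_T0 τ)

theorem integral_mk (G : ℂ → ℝ) :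
    ∫ z, G z = ∫ p : ℝ × ℝ, G ⟨p.1, p.2⟩ := by
  have h := (Complex.volume_preserving_equiv_real_prod.symm).integral_comp
    Complex.measurableEquivRealProd.symm.measurableEmbedding G
  rw [← h]
  rfl

theorem integrable_mk {G : ℂ → ℝ} (hG : Integrable G) :
    Integrable (fun p : ℝ × ℝ => G ⟨p.1, p.2⟩) (volume.prod volume) := by
  have h := ((Complex.volume_preserving_equiv_real_prod.symm).integrable_comp_emb
    Complex.measurableEquivRealProd.symm.measurableEmbedding (g := G)).2 hG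
  exact h

theorem sec_vert {τ : ℝ} (hτ : 0 < τ) {F : ℂ → ℝ} (hF : Continuous F) :
    ∫ z in sec τ, F z = ∫ x in (0 : ℝ)..1, ∫ y in (-(τ * x))..(τ * x), F ⟨x, y⟩ := by
  have hI := integrable_mk ((integrable_indicator_iff (C_isOpen_sec τ).measurableSet).2
    (sec_integrableOn hτ hF))
  rw [← integral_indicator (C_isOpen_sec τ).measurableSet, integral_mk, Measure.volume_eq_prod,
    integral_prod _ hI]
  rw [intervalIntegral.integral_of_le zero_le_one, integral_Ioc_eq_integral_Ioo,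
    ← integral_indicator measurableSet_Ioo]
  apply integral_congr_ae
  filter_upwards with x
  by_cases hx : x ∈ Ioo (0 : ℝ) 1
  · rw [indicator_of_mem hx]
    have hx0 : 0 ≤ τ * x := mul_nonneg hτ.le hx.1.le
    rw [intervalIntegral.integral_of_le (by linarith), integral_Ioc_eq_integral_Ioo,
      ← integral_indicator measurableSet_Ioo]
    apply integral_congr_ae
    filter_upwards with y
    by_cases hy : y ∈ Ioo (-(τ * x)) (τ * x)
    · rw [indicator_of_mem hy, indicator_of_mem]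
      exact ⟨hx.1, hx.2, abs_lt.2 hy⟩
    · rw [indicator_of_notMem hy, indicator_of_notMem]
      rintro ⟨-, -, h3⟩
      exact hy (abs_lt.1 h3)
  · rw [indicator_of_notMem hx]
    have : ∀ y : ℝ, (sec τ).indicator F ⟨x, y⟩ = 0 := by
      intro y
      apply indicator_of_notMem
      rintro ⟨h1, h2, -⟩
      exact hx ⟨h1, h2⟩
    simp only [this, integral_zero]

theorem sec_horiz {τ : ℝ} (hτ : 0 < τ) {F : ℂ → ℝ} (hF : Continuous F) :
    ∫ z in sec τ, F z = ∫ y in (-τ)..τ, ∫ x in (|y| / τ)..1, F ⟨x, y⟩ := by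
  have hI := integrable_mk ((integrable_indicator_iff (C_isOpen_sec τ).measurableSet).2
    (sec_integrableOn hτ hF))
  rw [← integral_indicator (C_isOpen_sec τ).measurableSet, integral_mk, Measure.volume_eq_prod,
    integral_prod_symm _ hI]
  rw [intervalIntegral.integral_of_le (by linarith : -τ ≤ τ), integral_Ioc_eq_integral_Ioo,
    ← integral_indicator measurableSet_Ioo]
  apply integral_congr_ae
  filter_upwards with y
  by_cases hy : y ∈ Ioo (-τ) τ
  · rw [indicator_of_mem hy]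
    have hy1 : |y| / τ ≤ 1 := by
      rw [div_le_one hτ]; exact (abs_lt.2 hy).le
    rw [intervalIntegral.integral_of_le hy1, integral_Ioc_eq_integral_Ioo,
      ← integral_indicator measurableSet_Ioo]
    apply integral_congr_ae
    filter_upwards with x
    by_cases hx : x ∈ Ioo (|y| / τ) 1
    · rw [indicator_of_mem hx, indicator_of_mem]
      have h1 : |y| < τ * x := by
        have := hx.1
        rwa [div_lt_iff₀' hτ] at this
      refine ⟨?_, hx.2, h1⟩
      have h0 : 0 ≤ |y| / τ := by positivity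
      exact lt_of_le_of_lt h0 hx.1
    · rw [indicator_of_notMem hx, indicator_of_notMem]
      rintro ⟨-, h2, h3⟩
      apply hx
      refine ⟨?_, h2⟩
      rw [div_lt_iff₀' hτ]
      exact h3
  · rw [indicator_of_notMem hy]
    have : ∀ x : ℝ, (sec τ).indicator F ⟨x, y⟩ = 0 := by
      intro x
      apply indicator_of_notMem
      rintro ⟨h1, h2, h3⟩
      apply hy
      apply abs_lt.1
      have h2' : x < 1 := h2
      have h3' : |y| < τ * x := h3
      nlinarith
    simp only [this, integral_zero]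

/-- Area of the sector. -/
theorem sec_one {τ : ℝ} (hτ : 0 < τ) : ∫ _ in sec τ, (1 : ℝ) = τ := by
  rw [sec_vert hτ (F := fun _ => (1 : ℝ)) continuous_const]
  have : ∀ x : ℝ, ∫ _ in (-(τ * x))..(τ * x), (1 : ℝ) = (2 * τ) * x := by
    intro x; simp; ring
  simp only [this]
  rw [intervalIntegral.integral_const_mul, integral_id]
  ring

theorem hasDerivAt_mk_y {f : ℂ → ℂ} (hf : ContDiff ℝ 1 f) (x y : ℝ) :
    HasDerivAt (fun y : ℝ => f ⟨x, y⟩) (fderiv ℝ f ⟨x, y⟩ Complex.I) y := by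
  have h1 : HasDerivAt (fun y : ℝ => (⟨x, y⟩ : ℂ)) Complex.I y := by
    have e : (fun y : ℝ => (⟨x, y⟩ : ℂ)) = fun y : ℝ => (x : ℂ) + (y : ℂ) * Complex.I := by
      funext y
      apply Complex.ext <;> simp
    rw [e]
    have := (Complex.ofRealCLM.hasDerivAt (x := y)).mul_const Complex.I
    simpa using this.const_add (x : ℂ)
  have h2 : HasFDerivAt f (fderiv ℝ f ⟨x, y⟩) ⟨x, y⟩ :=
    ((hf.differentiable (by norm_num)) _).hasFDerivAt
  exact h2.comp_hasDerivAt y h1

theorem hasDerivAt_mk_x {f : ℂ → ℂ} (hf : ContDiff ℝ 1 f) (x y : ℝ) :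
    HasDerivAt (fun x : ℝ => f ⟨x, y⟩) (fderiv ℝ f ⟨x, y⟩ 1) x := by
  have h1 : HasDerivAt (fun x : ℝ => (⟨x, y⟩ : ℂ)) 1 x := by
    have e : (fun x : ℝ => (⟨x, y⟩ : ℂ)) = fun x : ℝ => (x : ℂ) + (y : ℂ) * Complex.I := by
      funext y
      apply Complex.ext <;> simp
    rw [e]
    have := (Complex.ofRealCLM.hasDerivAt (x := x)).add_const ((y : ℂ) * Complex.I)
    simpa using this
  have h2 : HasFDerivAt f (fderiv ℝ f ⟨x, y⟩) ⟨x, y⟩ :=
    ((hf.differentiable (by norm_num)) _).hasFDerivAt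
  exact h2.comp_hasDerivAt x h1

theorem continuous_fd {f : ℂ → ℂ} (hf : ContDiff ℝ 1 f) (w : ℂ) :
    Continuous fun z => fderiv ℝ f z w :=
  (hf.continuous_fderiv (by norm_num)).clm_apply continuous_const

theorem continuous_fd_re {f : ℂ → ℂ} (hf : ContDiff ℝ 1 f) (w : ℂ) :
    Continuous fun z => (fderiv ℝ f z w).re := Complex.continuous_re.comp (continuous_fd hf w)

theorem continuous_fd_im {f : ℂ → ℂ} (hf : ContDiff ℝ 1 f) (w : ℂ) :
    Continuous fun z => (fderiv ℝ f z w).im := Complex.continuous_im.comp (continuous_fd hf w)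

theorem continuous_mk_x (y : ℝ) : Continuous fun x : ℝ => (⟨x, y⟩ : ℂ) := by
  have : (fun x : ℝ => (⟨x, y⟩ : ℂ)) = fun x : ℝ => (x : ℂ) + (y : ℂ) * Complex.I := by
    funext y
    apply Complex.ext <;> simp
  rw [this]
  fun_prop

theorem int_dy {f : ℂ → ℂ} (hf : ContDiff ℝ 1 f) (x a b : ℝ) :
    ∫ y in a..b, (fderiv ℝ f ⟨x, y⟩ Complex.I).im = (f ⟨x, b⟩).im - (f ⟨x, a⟩).im := by
  apply intervalIntegral.integral_eq_sub_of_hasDerivAt
  · intro y _
    exact Complex.imCLM.hasFDerivAt.comp_hasDerivAt y (hasDerivAt_mk_y hf x y)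
  · exact ((continuous_fd_im hf Complex.I).comp (C_continuous_mk x)).intervalIntegrable _ _

theorem int_dx {f : ℂ → ℂ} (hf : ContDiff ℝ 1 f) (y a b : ℝ) :
    ∫ x in a..b, (fderiv ℝ f ⟨x, y⟩ 1).re = (f ⟨b, y⟩).re - (f ⟨a, y⟩).re := by
  apply intervalIntegral.integral_eq_sub_of_hasDerivAt
  · intro x _
    exact Complex.reCLM.hasFDerivAt.comp_hasDerivAt x (hasDerivAt_mk_x hf x y)
  · exact ((continuous_fd_re hf 1).comp (continuous_mk_x y)).intervalIntegrable _ _

theorem Legs.up' {τ : ℝ} {U : ℂ → ℂ} {g : ℝ → ℝ} (h : Legs τ U g) (t : ℝ) :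
    U ⟨t, τ * t⟩ = ⟨g t, τ * g t⟩ := by
  have e1 : (⟨t, τ * t⟩ : ℂ) = (t : ℂ) * (1 + (τ : ℂ) * Complex.I) := by
    apply Complex.ext <;> simp [mul_comm]
  have e2 : (⟨g t, τ * g t⟩ : ℂ) = (g t : ℂ) * (1 + (τ : ℂ) * Complex.I) := by
    apply Complex.ext <;> simp [mul_comm]
  rw [e1, e2, h.up]

theorem Legs.down' {τ : ℝ} {U : ℂ → ℂ} {g : ℝ → ℝ} (h : Legs τ U g) (t : ℝ) :
    U ⟨t, -(τ * t)⟩ = ⟨g t, -(τ * g t)⟩ := by
  have e1 : (⟨t, -(τ * t)⟩ : ℂ) = (t : ℂ) * (1 - (τ : ℂ) * Complex.I) := by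
    apply Complex.ext <;> simp [mul_comm]
  have e2 : (⟨g t, -(τ * g t)⟩ : ℂ) = (g t : ℂ) * (1 - (τ : ℂ) * Complex.I) := by
    apply Complex.ext <;> simp [mul_comm]
  rw [e1, e2, h.down]

theorem Legs.cont {τ : ℝ} {U : ℂ → ℂ} {g : ℝ → ℝ} (h : Legs τ U g) (hU : Continuous U) :
    Continuous g := by
  have e : g = fun t : ℝ => (U ((t : ℂ) * (1 + (τ : ℂ) * Complex.I))).re := by
    funext t
    rw [h.up]; simp
  rw [e]
  fun_prop

/-- The divergence has integral zero. -/
theorem sec_div {τ : ℝ} (hτ : 0 < τ) {v : ℂ → ℂ} {g : ℝ → ℝ} (hv : ContDiff ℝ 1 v)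
    (hL : Legs τ v g) (hm : ∫ y in (-τ)..τ, (v ⟨1, y⟩).re = 0) :
    ∫ z in sec τ, ((fderiv ℝ v z 1).re + (fderiv ℝ v z Complex.I).im) = 0 := by
  have hg : Continuous g := hL.cont hv.continuous
  have i1 := sec_integrableOn hτ (continuous_fd_re hv 1)
  have i2 := sec_integrableOn hτ (continuous_fd_im hv Complex.I)
  rw [integral_add i1 i2, sec_horiz hτ (continuous_fd_re hv 1),
    sec_vert hτ (continuous_fd_im hv Complex.I)]
  -- vertical part
  have hV : ∫ x in (0 : ℝ)..1, ∫ y in (-(τ * x))..(τ * x), (fderiv ℝ v ⟨x, y⟩ Complex.I).im =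
      2 * τ * ∫ x in (0 : ℝ)..1, g x := by
    rw [← intervalIntegral.integral_const_mul]
    apply intervalIntegral.integral_congr
    intro x _
    show ∫ y in (-(τ * x))..(τ * x), (fderiv ℝ v ⟨x, y⟩ Complex.I).im = 2 * τ * g x
    rw [int_dy hv, hL.up', hL.down']
    ring
  -- horizontal part
  have hcont : Continuous fun y : ℝ => g (|y| / τ) := hg.comp (by fun_prop)
  have hH : ∫ y in (-τ)..τ, ∫ x in (|y| / τ)..1, (fderiv ℝ v ⟨x, y⟩ 1).re =
      - ∫ y in (-τ)..τ, g (|y| / τ) := by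
    have e : ∀ y : ℝ, ∫ x in (|y| / τ)..1, (fderiv ℝ v ⟨x, y⟩ 1).re =
        (v ⟨1, y⟩).re - g (|y| / τ) := by
      intro y
      rw [int_dx hv]
      congr 1
      rcases le_total 0 y with hy | hy
      · rw [abs_of_nonneg hy]
        have h1 := hL.up' (y / τ)
        have h2 : τ * (y / τ) = y := by field_simp
        rw [h2] at h1
        rw [h1]
      · rw [abs_of_nonpos hy]
        have h1 := hL.down' (-y / τ)
        have h2 : -(τ * (-y / τ)) = y := by field_simp
        rw [h2] at h1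
        rw [h1]
    simp only [e]
    rw [intervalIntegral.integral_sub _ (hcont.intervalIntegrable _ _), hm, zero_sub]
    exact (Complex.continuous_re.comp
      (hv.continuous.comp (C_continuous_mk 1))).intervalIntegrable _ _
  have hS : ∫ y in (-τ)..τ, g (|y| / τ) = 2 * τ * ∫ x in (0 : ℝ)..1, g x := by
    have h1 : ∫ y in (0 : ℝ)..τ, g (|y| / τ) = τ * ∫ x in (0 : ℝ)..1, g x := by
      have h2 : ∫ y in (0 : ℝ)..τ, g (|y| / τ) = ∫ y in (0 : ℝ)..τ, g (y / τ) := by
        apply intervalIntegral.integral_congr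
        intro y hy
        rw [uIcc_of_le hτ.le] at hy
        show g (|y| / τ) = g (y / τ)
        rw [abs_of_nonneg hy.1]
      rw [h2, intervalIntegral.integral_comp_div (fun x => g x) hτ.ne']
      simp [hτ.ne']
    have h3 : ∫ y in (-τ)..0, g (|y| / τ) = ∫ y in (0 : ℝ)..τ, g (|y| / τ) := by
      have h4 := intervalIntegral.integral_comp_neg (a := (0 : ℝ)) (b := τ)
        (fun y => g (|y| / τ))
      simp only [abs_neg, neg_zero] at h4
      rw [← h4]
    rw [← intervalIntegral.integral_add_adjacent_intervals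
      (hcont.intervalIntegrable (-τ) 0) (hcont.intervalIntegrable 0 τ), h3, h1]
    ring
  rw [hV, hH, hS]
  ring

/-- Functions which are odd with respect to conjugation have integral zero over the sector. -/
theorem sec_odd {τ : ℝ} {F : ℂ → ℝ} (hF : ∀ z, F ((starRingEnd ℂ) z) = - F z) :
    ∫ z in sec τ, F z = 0 := by
  have hpre : (Complex.conjLIE : ℂ ≃ₗᵢ[ℝ] ℂ) ⁻¹' sec τ = sec τ := by
    ext z
    simp [sec]
  have h1 := (Complex.conjLIE.measurePreserving).setIntegral_preimage_emb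
    (Complex.conjLIE.toHomeomorph.measurableEmbedding) F (sec τ)
  rw [hpre] at h1
  have h2 : ∫ z in sec τ, F (Complex.conjLIE z) = - ∫ z in sec τ, F z := by
    rw [← integral_neg]
    apply integral_congr_ae
    filter_upwards with z
    exact hF z
  linarith

end Pool.Agent.NGN
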