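import Pool.Agent.NGN.C.Div

/-!
# Energy of the transplanted field on one triangle

MP_b1ddb4_an, project NGN, part C.
-/

set_option autoImplicit false

noncomputable section

namespace Pool.Agent.NGN

open Filter Topology Set MeasureTheory

/-- The even part of the energy density. -/
def eV (ka la a b d f : ℝ) : ℝ :=
  a ^ 2 + b ^ 2 + ka ^ 2 * ((a - b) ^ 2 - 2 * (d * f)) + la ^ 2 * f ^ 2
    + (1 + ka ^ 2) ^ 2 * d ^ 2 / la ^ 2

/-- The odd part of the energy density. -/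
def eO (ka la a b d f : ℝ) : ℝ :=
  2 * ka * la * (a * f) + 2 * ka * (1 + ka ^ 2) / la * (d * b)
    - 2 * ka * (1 + ka ^ 2) / la * (a * d) - 2 * ka * la * (f * b)

theorem eV_nonneg {ka la : ℝ} (hl : 0 < la) (a b d f : ℝ) : 0 ≤ eV ka la a b d f := by
  have e : eV ka la a b d f = a ^ 2 + b ^ 2 + ka ^ 2 * (a - b) ^ 2 +
      (la * f - ka ^ 2 / la * d) ^ 2 + (1 + 2 * ka ^ 2) * (d / la) ^ 2 := by
    unfold eV
    field_simp
    ring
  rw [e]
  positivity

/-- `|∇ re f|² + |∇ im f|²`. -/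
def fr2 (f : ℂ → ℂ) (z : ℂ) : ℝ :=
  ((fderiv ℝ f z 1).re ^ 2 + (fderiv ℝ f z 1).im ^ 2) +
    ((fderiv ℝ f z Complex.I).re ^ 2 + (fderiv ℝ f z Complex.I).im ^ 2)

theorem grad2_add {f : ℂ → ℂ} {z : ℂ} (hf : DifferentiableAt ℝ f z) :
    grad2 (fun z => (f z).re) z + grad2 (fun z => (f z).im) z = fr2 f z := by
  have h1 : HasFDerivAt (fun z => (f z).re) (Complex.reCLM.comp (fderiv ℝ f z)) z :=
    Complex.reCLM.hasFDerivAt.comp z hf.hasFDerivAt
  have h2 : HasFDerivAt (fun z => (f z).im) (Complex.imCLM.comp (fderiv ℝ f z)) z :=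
    Complex.imCLM.hasFDerivAt.comp z hf.hasFDerivAt
  unfold grad2 fr2
  rw [h1.fderiv, h2.fderiv]
  simp only [ContinuousLinearMap.coe_comp, Function.comp_apply, Complex.reCLM_apply,
    Complex.imCLM_apply]
  ring

theorem fderiv_Wi {τ : ℝ} {U : ℂ → ℂ} (hU : ContDiff ℝ 1 U) (P Q z : ℂ) :
    fderiv ℝ (Wi τ U P Q) z = (Am τ P Q).comp ((fderiv ℝ U (Bm τ P Q z)).comp (Bm τ P Q)) := by
  have h1 : HasFDerivAt U (fderiv ℝ U (Bm τ P Q z)) (Bm τ P Q z) :=
    ((hU.differentiable (by norm_num)) _).hasFDerivAt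
  have h2 : HasFDerivAt (Wi τ U P Q)
      ((Am τ P Q).comp ((fderiv ℝ U (Bm τ P Q z)).comp (Bm τ P Q))) z :=
    (Am τ P Q).hasFDerivAt.comp z (h1.comp z (Bm τ P Q).hasFDerivAt)
  exact h2.fderiv

theorem clm_apply_eq (B : ℂ →L[ℝ] ℂ) (w : ℂ) :
    B w = (w.re : ℂ) * B 1 + (w.im : ℂ) * B Complex.I := by
  have h : w = w.re • (1 : ℂ) + w.im • Complex.I := by
    apply Complex.ext <;> simp
  conv_lhs => rw [h]
  rw [map_add, map_smul, map_smul, Complex.real_smul, Complex.real_smul]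

/-- Frobenius norm of `A B A⁻¹` in terms of the numbers of the side. -/
theorem frob {τ : ℝ} (hτ : 0 < τ) {P Q : ℂ} (h : 0 < cr P Q) (B : ℂ →L[ℝ] ℂ) :
    ((Am τ P Q (B (Bm τ P Q 1))).re ^ 2 + (Am τ P Q (B (Bm τ P Q 1))).im ^ 2) +
      ((Am τ P Q (B (Bm τ P Q Complex.I))).re ^ 2 +
        (Am τ P Q (B (Bm τ P Q Complex.I))).im ^ 2) =
      eV (sK P Q) (sL τ P Q) (B 1).re (B Complex.I).im (B Complex.I).re (B 1).im +
      eO (sK P Q) (sL τ P Q) (B 1).re (B Complex.I).im (B Complex.I).re (B 1).im := by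
  have hN := C_norm_sub_pos h
  have hh : 0 < sH P Q := div_pos h hN
  have hl : 0 < sL τ P Q := by unfold sL; positivity
  rw [Am_normSq hτ h, Am_normSq hτ h]
  set x1 := (Bm τ P Q 1).re with hx1
  set y1 := (Bm τ P Q 1).im with hy1
  set x2 := (Bm τ P Q Complex.I).re with hx2
  set y2 := (Bm τ P Q Complex.I).im with hy2
  have hc0 : cr P Q ≠ 0 := h.ne'
  -- `c = 2 τ h² λ`
  have hc : cr P Q = 2 * τ * (sH P Q ^ 2 * sL τ P Q) := by
    unfold sH sL; field_simp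
  have ee := side_ee (τ := τ) h
  have me := side_me (τ := τ) h
  have mm := side_mm h
  have e1 : x1 = (Q.im - P.im) / cr P Q := by
    rw [hx1, Bm_re]; congr 1; simp [cr]; ring
  have e2 : y1 = - (τ * (P.im + Q.im) / cr P Q) := by
    rw [hy1, Bm_im]
    have : cr P 1 - cr 1 Q = -(P.im + Q.im) := by simp [cr]; ring
    rw [this]; ring
  have e3 : x2 = - ((Q.re - P.re) / cr P Q) := by
    rw [hx2, Bm_re]
    have : cr P Complex.I + cr Complex.I Q = -(Q.re - P.re) := by simp [cr]; ring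
    rw [this]; ring
  have e4 : y2 = τ * (P.re + Q.re) / cr P Q := by
    rw [hy2, Bm_im]
    have : cr P Complex.I - cr Complex.I Q = P.re + Q.re := by simp [cr]
    rw [this]
  have hxx : (x1 ^ 2 + x2 ^ 2) * sH P Q ^ 2 = 1 := by
    have : x1 ^ 2 + x2 ^ 2 = 4 * τ ^ 2 * (sH P Q ^ 2 * sL τ P Q ^ 2) / cr P Q ^ 2 := by
      rw [ee, e1, e3]; field_simp; ring
    rw [this, hc]; field_simp
    norm_num
  have hxy : (x1 * y1 + x2 * y2) * (sH P Q ^ 2 * sL τ P Q) = - sK P Q := by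
    have : x1 * y1 + x2 * y2 =
        - (4 * τ ^ 2 * (sH P Q ^ 2 * (sK P Q * sL τ P Q)) / cr P Q ^ 2) := by
      rw [me, e1, e2, e3, e4]; field_simp; ring
    rw [this, hc]; field_simp
    ring
  have hyy : (y1 ^ 2 + y2 ^ 2) * (sH P Q ^ 2 * sL τ P Q ^ 2) = 1 + sK P Q ^ 2 := by
    have : y1 ^ 2 + y2 ^ 2 = 4 * τ ^ 2 * (sH P Q ^ 2 * (1 + sK P Q ^ 2)) / cr P Q ^ 2 := by
      rw [mm, e2, e4]; field_simp; ring
    rw [this, hc]; field_simp
    norm_num
  have b1r : (B (Bm τ P Q 1)).re = x1 * (B 1).re + y1 * (B Complex.I).re := by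
    rw [clm_apply_eq B (Bm τ P Q 1)]; simp [← hx1, ← hy1]
  have b1i : (B (Bm τ P Q 1)).im = x1 * (B 1).im + y1 * (B Complex.I).im := by
    rw [clm_apply_eq B (Bm τ P Q 1)]; simp [← hx1, ← hy1]
  have b2r : (B (Bm τ P Q Complex.I)).re = x2 * (B 1).re + y2 * (B Complex.I).re := by
    rw [clm_apply_eq B (Bm τ P Q Complex.I)]; simp [← hx2, ← hy2]
  have b2i : (B (Bm τ P Q Complex.I)).im = x2 * (B 1).im + y2 * (B Complex.I).im := by
    rw [clm_apply_eq B (Bm τ P Q Complex.I)]; simp [← hx2, ← hy2]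
  rw [b1r, b1i, b2r, b2i]
  set a := (B 1).re
  set f := (B 1).im
  set d := (B Complex.I).re
  set b := (B Complex.I).im
  set H := sH P Q
  set k := sK P Q
  set l := sL τ P Q
  -- collect
  have key : H ^ 2 * (1 + k ^ 2) * (x1 * a + y1 * d) ^ 2 +
      2 * (H ^ 2 * (k * l)) * ((x1 * a + y1 * d) * (x1 * f + y1 * b)) +
        H ^ 2 * l ^ 2 * (x1 * f + y1 * b) ^ 2 +
      (H ^ 2 * (1 + k ^ 2) * (x2 * a + y2 * d) ^ 2 +
      2 * (H ^ 2 * (k * l)) * ((x2 * a + y2 * d) * (x2 * f + y2 * b)) +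
        H ^ 2 * l ^ 2 * (x2 * f + y2 * b) ^ 2) =
      ((x1 ^ 2 + x2 ^ 2) * H ^ 2) * ((1 + k ^ 2) * a ^ 2 + 2 * (k * l) * (a * f) + l ^ 2 * f ^ 2) +
      ((x1 * y1 + x2 * y2) * (H ^ 2 * l)) * (2 * (1 + k ^ 2) * (a * d) / l +
        2 * k * (a * b + d * f) + 2 * l * (f * b)) +
      ((y1 ^ 2 + y2 ^ 2) * (H ^ 2 * l ^ 2)) * ((1 + k ^ 2) * d ^ 2 / l ^ 2 +
        2 * k * (d * b) / l + b ^ 2) := by
    field_simp
    ring
  rw [key, hxx, hxy, hyy]
  unfold eV eO
  field_simp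
  ring

theorem fr2_Wi {τ : ℝ} (hτ : 0 < τ) {U : ℂ → ℂ} (hU : ContDiff ℝ 1 U) {P Q : ℂ}
    (h : 0 < cr P Q) (z : ℂ) :
    fr2 (Wi τ U P Q) (Am τ P Q z) =
      eV (sK P Q) (sL τ P Q) (fderiv ℝ U z 1).re (fderiv ℝ U z Complex.I).im
        (fderiv ℝ U z Complex.I).re (fderiv ℝ U z 1).im +
      eO (sK P Q) (sL τ P Q) (fderiv ℝ U z 1).re (fderiv ℝ U z Complex.I).im
        (fderiv ℝ U z Complex.I).re (fderiv ℝ U z 1).im := by
  unfold fr2
  rw [fderiv_Wi hU, Bm_Am hτ h]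
  exact frob hτ h (fderiv ℝ U z)

/-- Symmetry of the derivative. -/
theorem Sym.fd_conj {n : ℕ} {U : ℂ → ℂ} (hU : Sym n U) (z w : ℂ) :
    fderiv ℝ U ((starRingEnd ℂ) z) ((starRingEnd ℂ) w) = (starRingEnd ℂ) (fderiv ℝ U z w) := by
  have h1 : HasFDerivAt (fun z => U ((starRingEnd ℂ) z))
      ((fderiv ℝ U ((starRingEnd ℂ) z)).comp (Complex.conjCLE : ℂ →L[ℝ] ℂ)) z := by
    have h2 : HasFDerivAt U (fderiv ℝ U ((starRingEnd ℂ) z)) ((starRingEnd ℂ) z) :=
      ((hU.smooth.differentiable (by norm_num)) _).hasFDerivAt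
    exact HasFDerivAt.comp z h2 (Complex.conjCLE : ℂ →L[ℝ] ℂ).hasFDerivAt
  have h3 : HasFDerivAt (fun z => (starRingEnd ℂ) (U z))
      ((Complex.conjCLE : ℂ →L[ℝ] ℂ).comp (fderiv ℝ U z)) z :=
    (Complex.conjCLE : ℂ →L[ℝ] ℂ).hasFDerivAt.comp z
      ((hU.smooth.differentiable (by norm_num)) z).hasFDerivAt
  have h4 : (fun z => U ((starRingEnd ℂ) z)) = fun z => (starRingEnd ℂ) (U z) := by
    funext z; exact hU.conj z
  rw [h4] at h1
  have h5 := h1.unique h3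
  have h6 := congrArg (fun L : ℂ →L[ℝ] ℂ => L w) h5
  simpa using h6

theorem Sym.fd1 {n : ℕ} {U : ℂ → ℂ} (hU : Sym n U) (z : ℂ) :
    fderiv ℝ U ((starRingEnd ℂ) z) 1 = (starRingEnd ℂ) (fderiv ℝ U z 1) := by
  have := hU.fd_conj z 1
  rwa [map_one] at this

theorem Sym.fdI {n : ℕ} {U : ℂ → ℂ} (hU : Sym n U) (z : ℂ) :
    fderiv ℝ U ((starRingEnd ℂ) z) Complex.I = - (starRingEnd ℂ) (fderiv ℝ U z Complex.I) := by
  have := hU.fd_conj z Complex.I
  rw [Complex.conj_I, map_neg] at this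
  rw [← this, neg_neg]

/-- The energy on one triangle. -/
theorem tri_energy {n : ℕ} (hn : 3 ≤ n) {v : ℂ → ℂ} (hv : VV n v) (th : ℝ) {P Q : ℂ}
    (h : 0 < cr P Q) :
    ∫ z in OTr P Q, fr2 (Wi (tauN n) (Uth v th) P Q) z =
      2 * tauN n * (sH P Q ^ 2 * sL (tauN n) P Q) + th ^ 2 * (sH P Q ^ 2 * sL (tauN n) P Q *
        ((datOf (tauN n) v).a + (datOf (tauN n) v).b + sK P Q ^ 2 * (datOf (tauN n) v).ga +
          sL (tauN n) P Q ^ 2 * (datOf (tauN n) v).f +
            (1 + sK P Q ^ 2) ^ 2 * (datOf (tauN n) v).d / sL (tauN n) P Q ^ 2)) := by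
  have hτ : 0 < tauN n := by
    have hc := tauN_cos hn
    have hn' : (3 : ℝ) ≤ n := by exact_mod_cast hn
    unfold tauN
    apply Real.tan_pos_of_pos_of_lt_pi_div_two (by positivity)
    rw [div_lt_div_iff₀ (by linarith) (by norm_num)]
    nlinarith [Real.pi_pos]
  have hN := C_norm_sub_pos h
  have hl : 0 < sL (tauN n) P Q := by unfold sL; positivity
  obtain ⟨g, hg⟩ := hv.sym.legs hn
  have hU := Uth_sym hv.sym th
  rw [integral_OTr hτ h]
  have hc : cr P Q / (2 * tauN n) = sH P Q ^ 2 * sL (tauN n) P Q := by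
    unfold sH sL; field_simp
  rw [hc]
  -- derivatives of `id + θ v`
  have hfd : ∀ z w, fderiv ℝ (Uth v th) z w = w + (th : ℂ) * fderiv ℝ v z w := by
    intro z w
    have h1 : HasFDerivAt v (fderiv ℝ v z) z :=
      ((hv.sym.smooth.differentiable (by norm_num)) z).hasFDerivAt
    have h2 : HasFDerivAt (Uth v th)
        (ContinuousLinearMap.id ℝ ℂ + (th : ℂ) • (fderiv ℝ v z)) z :=
      (hasFDerivAt_id z).add (h1.const_mul (th : ℂ))
    rw [h2.fderiv]
    simp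
  set k := sK P Q
  set l := sL (tauN n) P Q
  have hodd : ∫ z in sec (tauN n), eO k l (fderiv ℝ (Uth v th) z 1).re
      (fderiv ℝ (Uth v th) z Complex.I).im (fderiv ℝ (Uth v th) z Complex.I).re
        (fderiv ℝ (Uth v th) z 1).im = 0 := by
    apply sec_odd
    intro z
    rw [hU.fd1, hU.fdI]
    simp only [Complex.neg_re, Complex.neg_im, Complex.conj_re, Complex.conj_im]
    unfold eO
    ring
  have c1 := continuous_fd_re hU.smooth 1
  have c2 := continuous_fd_im hU.smooth 1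
  have c3 := continuous_fd_re hU.smooth Complex.I
  have c4 := continuous_fd_im hU.smooth Complex.I
  have ceV : Continuous fun z => eV k l (fderiv ℝ (Uth v th) z 1).re
      (fderiv ℝ (Uth v th) z Complex.I).im (fderiv ℝ (Uth v th) z Complex.I).re
        (fderiv ℝ (Uth v th) z 1).im := by
    unfold eV; fun_prop
  have ceO : Continuous fun z => eO k l (fderiv ℝ (Uth v th) z 1).re
      (fderiv ℝ (Uth v th) z Complex.I).im (fderiv ℝ (Uth v th) z Complex.I).re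
        (fderiv ℝ (Uth v th) z 1).im := by
    unfold eO; fun_prop
  have e1 : ∫ z in sec (tauN n), fr2 (Wi (tauN n) (Uth v th) P Q) (Am (tauN n) P Q z) =
      ∫ z in sec (tauN n), eV k l (fderiv ℝ (Uth v th) z 1).re
      (fderiv ℝ (Uth v th) z Complex.I).im (fderiv ℝ (Uth v th) z Complex.I).re
        (fderiv ℝ (Uth v th) z 1).im := by
    have e2 : (fun z => fr2 (Wi (tauN n) (Uth v th) P Q) (Am (tauN n) P Q z)) = fun z =>
        eV k l (fderiv ℝ (Uth v th) z 1).re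
          (fderiv ℝ (Uth v th) z Complex.I).im (fderiv ℝ (Uth v th) z Complex.I).re
            (fderiv ℝ (Uth v th) z 1).im +
        eO k l (fderiv ℝ (Uth v th) z 1).re
          (fderiv ℝ (Uth v th) z Complex.I).im (fderiv ℝ (Uth v th) z Complex.I).re
            (fderiv ℝ (Uth v th) z 1).im := by
      funext z; exact fr2_Wi hτ hU.smooth h z
    rw [e2, integral_add (sec_integrableOn hτ ceV) (sec_integrableOn hτ ceO), hodd, add_zero]
  rw [e1]
  -- expand in `θ`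
  have d1 := continuous_fd_re hv.sym.smooth 1
  have d2 := continuous_fd_im hv.sym.smooth 1
  have d3 := continuous_fd_re hv.sym.smooth Complex.I
  have d4 := continuous_fd_im hv.sym.smooth Complex.I
  have e3 : (fun z => eV k l (fderiv ℝ (Uth v th) z 1).re
      (fderiv ℝ (Uth v th) z Complex.I).im (fderiv ℝ (Uth v th) z Complex.I).re
        (fderiv ℝ (Uth v th) z 1).im) = fun z =>
      2 * (1 : ℝ) + (2 * th) * ((fderiv ℝ v z 1).re + (fderiv ℝ v z Complex.I).im) +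
      (th ^ 2 * (fderiv ℝ v z 1).re ^ 2 + th ^ 2 * (fderiv ℝ v z Complex.I).im ^ 2 +
      (th ^ 2 * k ^ 2) * ((fderiv ℝ v z 1).re - (fderiv ℝ v z Complex.I).im) ^ 2 +
      (-(2 * th ^ 2 * k ^ 2)) * ((fderiv ℝ v z Complex.I).re * (fderiv ℝ v z 1).im) +
      (th ^ 2 * l ^ 2) * (fderiv ℝ v z 1).im ^ 2 +
      (th ^ 2 * ((1 + k ^ 2) ^ 2 / l ^ 2)) * (fderiv ℝ v z Complex.I).re ^ 2) := by
    funext z
    rw [hfd, hfd]
    simp only [Complex.add_re, Complex.add_im, Complex.one_re, Complex.one_im, Complex.I_re,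
      Complex.I_im, Complex.re_ofReal_mul, Complex.im_ofReal_mul]
    unfold eV
    ring
  rw [e3, integral_add, integral_add, integral_add, integral_add, integral_add, integral_add,
    integral_add, integral_const_mul, integral_const_mul,
    integral_const_mul, integral_const_mul, integral_const_mul, integral_const_mul,
    integral_const_mul, integral_const_mul, sec_one hτ,
    sec_div hτ hv.sym.smooth hg hv.mean]
  rotate_left
  all_goals first | exact sec_integrableOn hτ (by fun_prop) | skip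
  simp only [datOf]
  ring

end Pool.Agent.NGN
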