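import Pool.Agent.NGN.C.Energy
import Pool.Agent.NGN.LipTest

/-!
# The transplantation inequality

MP_b1ddb4_an, project NGN, part C.
-/

set_option autoImplicit false

noncomputable section

namespace Pool.Agent.NGN

open Filter Topology Set MeasureTheory Pool.Agent.Stk
open scoped NNReal

theorem sigN_eq_sigF (k : WithTop ℕ∞) {n : ℕ} [NeZero n] (Ω : Set ℂ) (P : ZMod n → ℂ) :
    sigN k Ω P = sigF k Ω P (fun i => P (i + 1)) := rfl

theorem bdN_eq_bdF {n : ℕ} [NeZero n] (P : ZMod n → ℂ) (f : ℂ → ℝ) :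
    bdN P f = bdF P (fun i => P (i + 1)) f := rfl

/-- Translation of a boundary integral. -/
theorem bdN_translate {n : ℕ} [NeZero n] (P : ZMod n → ℂ) (c : ℂ) (f : ℂ → ℝ) :
    bdN P (fun z => f (z - c)) = bdN (fun i => P i - c) f := by
  unfold bdN
  apply Finset.sum_congr rfl
  intro i _
  unfold segInt
  have h1 : dist (P i - c) (P (i + 1) - c) = dist (P i) (P (i + 1)) := by
    rw [dist_eq_norm, dist_eq_norm]; congr 1; ring
  rw [h1]
  congr 1
  apply intervalIntegral.integral_congr
  intro t _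
  show f (P i + (t : ℂ) * (P (i + 1) - P i) - c) =
    f (P i - c + (t : ℂ) * (P (i + 1) - c - (P i - c)))
  congr 1
  ring

theorem hull_translate {n : ℕ} (P : ZMod n → ℂ) (c : ℂ) {z : ℂ}
    (hz : z ∈ convexHull ℝ (range P)) :
    z - c ∈ convexHull ℝ (range fun i => P i - c) := by
  have hconv : Convex ℝ {z : ℂ | z - c ∈ convexHull ℝ (range fun i => P i - c)} := by
    intro x hx y hy a b ha hb hab
    have h1 := convex_convexHull ℝ (range fun i => P i - c) hx hy ha hb hab
    show a • x + b • y - c ∈ convexHull ℝ (range fun i => P i - c)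
    have h2 : a • (x - c) + b • (y - c) = a • x + b • y - c := by
      have h3 : a • c + b • c = c := by rw [← add_smul, hab, one_smul]
      rw [smul_sub, smul_sub]
      linear_combination (exp := 1) -h3
    rwa [h2] at h1
  have hsub : range P ⊆ {z : ℂ | z - c ∈ convexHull ℝ (range fun i => P i - c)} := by
    rintro _ ⟨i, rfl⟩
    exact subset_convexHull ℝ _ ⟨i, rfl⟩
  exact convexHull_min hsub hconv hz

theorem C_continuous_grad2 {f : ℂ → ℝ} (hf : ContDiff ℝ 1 f) : Continuous (grad2 f) := by
  have h := hf.continuous_fderiv (by norm_num)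
  unfold grad2
  exact ((h.clm_apply continuous_const).pow 2).add ((h.clm_apply continuous_const).pow 2)

/-- Energy of a piecewise `C¹` function. -/
theorem energy_le {n : ℕ} [NeZero n] (hn : 3 ≤ n) {p : ZMod n → ℂ} (hp : Cvx p) (c : ℂ)
    {Ω : Set ℂ} (hO : IsOpen Ω) (hΩ : ∀ z ∈ Ω, z - c ∈ convexHull ℝ (range p))
    {φ : ℂ → ℝ} {ψ : ZMod n → ℂ → ℝ} (hψ : ∀ i, ContDiff ℝ 1 (ψ i))
    (he : ∀ i, ∀ z ∈ OTr (p i) (p (i + 1)), φ z = ψ i z) :
    ∫ z in Ω, grad2 (fun z => φ (z - c)) z ≤ ∑ i, ∫ z in OTr (p i) (p (i + 1)), grad2 (ψ i) z := by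
  have h1 : ∀ z, grad2 (fun z => φ (z - c)) z = grad2 φ (z - c) := by
    intro z
    unfold grad2
    rw [fderiv_comp_sub]
  simp only [h1]
  rw [← integral_indicator hO.measurableSet]
  have h2 : ∫ z, Ω.indicator (fun z => grad2 φ (z - c)) z =
      ∫ z, Ω.indicator (fun z => grad2 φ (z - c)) (z + c) :=
    (integral_add_right_eq_self _ c).symm
  rw [h2]
  have hint : ∀ i, Integrable ((OTr (p i) (p (i + 1))).indicator (grad2 (ψ i))) := by
    intro i
    rw [integrable_indicator_iff (isOpen_OTr _ _).measurableSet]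
    exact ((C_continuous_grad2 (hψ i)).continuousOn.integrableOn_compact
      (isCompact_Tr (hp.pos i))).mono_set (OTr_sub_Tr _ _)
  have h3 : ∑ i, ∫ z in OTr (p i) (p (i + 1)), grad2 (ψ i) z =
      ∫ z, ∑ i, (OTr (p i) (p (i + 1))).indicator (grad2 (ψ i)) z := by
    rw [integral_finsetSum _ fun i _ => hint i]
    apply Finset.sum_congr rfl
    intro i _
    rw [integral_indicator (isOpen_OTr _ _).measurableSet]
  rw [h3]
  apply integral_mono_of_nonneg
  · filter_upwards with z
    apply indicator_nonneg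
    intro w _
    unfold grad2
    positivity
  · exact integrable_finsetSum _ fun i _ => hint i
  · have hnull : volume (⋃ i, (Tr (p i) (p (i + 1)) \ OTr (p i) (p (i + 1)))) = 0 := by
      rw [measure_iUnion_null_iff]
      intro i
      exact volume_Tr_diff (hp.pos i)
    have hae : ∀ᵐ z : ℂ, z ∉ ⋃ i, (Tr (p i) (p (i + 1)) \ OTr (p i) (p (i + 1))) :=
      measure_eq_zero_iff_ae_notMem.1 hnull
    filter_upwards [hae] with z hz
    have hnn : ∀ i, 0 ≤ (OTr (p i) (p (i + 1))).indicator (grad2 (ψ i)) z := by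
      intro i
      apply indicator_nonneg
      intro w _
      unfold grad2
      positivity
    by_cases hzc : z + c ∈ Ω
    · rw [indicator_of_mem hzc, add_sub_cancel_right]
      have hz1 : z ∈ convexHull ℝ (range p) := by
        have := hΩ _ hzc
        rwa [add_sub_cancel_right] at this
      obtain ⟨i, hi⟩ := mem_iUnion.1 (hp.hull_sub hn hz1)
      have hi' : z ∈ OTr (p i) (p (i + 1)) := by
        by_contra hcon
        exact hz (mem_iUnion.2 ⟨i, hi, hcon⟩)
      have h5 : φ =ᶠ[𝓝 z] ψ i := by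
        filter_upwards [(isOpen_OTr (p i) (p (i + 1))).mem_nhds hi'] with y hy
        exact he i y hy
      have h6 : grad2 φ z = (OTr (p i) (p (i + 1))).indicator (grad2 (ψ i)) z := by
        rw [indicator_of_mem hi']
        unfold grad2
        rw [h5.fderiv_eq]
      rw [h6]
      exact Finset.single_le_sum (f := fun i => (OTr (p i) (p (i + 1))).indicator (grad2 (ψ i)) z)
        (fun j _ => hnn j) (Finset.mem_univ i)
    · rw [indicator_of_notMem hzc]
      exact Finset.sum_nonneg fun i _ => hnn i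

theorem continuous_fr2 {f : ℂ → ℂ} (hf : ContDiff ℝ 1 f) : Continuous (fr2 f) := by
  have d1 := continuous_fd_re hf 1
  have d2 := continuous_fd_im hf 1
  have d3 := continuous_fd_re hf Complex.I
  have d4 := continuous_fd_im hf Complex.I
  unfold fr2
  fun_prop

/-- The transplantation inequality. -/
theorem C_main {n : ℕ} [NeZero n] (hn : 3 ≤ n) {k : ℕ∞} {Ω : Set ℂ} {P P' : ZMod n → ℂ}
    (h : PolyN Ω P) (hb : ∀ f : ℂ → ℝ, bdN P' f = bdN P f) (hc : Cvx (fun i => P' i - cen P))
    (hO : Ω ⊆ convexHull ℝ (Set.range P')) {v : ℂ → ℂ} (hv : VV n v) (th : ℝ) :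
    sigN k Ω P * MN (tauN n) (datOf (tauN n) v)
        (fun i => sH (P' i - cen P) (P' (i + 1) - cen P))
        (fun i => sK (P' i - cen P) (P' (i + 1) - cen P))
        (fun i => sL (tauN n) (P' i - cen P) (P' (i + 1) - cen P)) th
      ≤ EN (tauN n) (datOf (tauN n) v)
        (fun i => sH (P' i - cen P) (P' (i + 1) - cen P))
        (fun i => sK (P' i - cen P) (P' (i + 1) - cen P))
        (fun i => sL (tauN n) (P' i - cen P) (P' (i + 1) - cen P)) th := by
  set c : ℂ := cen P with hcdef
  set p : ZMod n → ℂ := fun i => P' i - c with hp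
  have hτ : 0 < tauN n := by
    have hc := tauN_cos hn
    have hn' : (3 : ℝ) ≤ n := by exact_mod_cast hn
    unfold tauN
    apply Real.tan_pos_of_pos_of_lt_pi_div_two (by positivity)
    rw [div_lt_div_iff₀ (by linarith) (by norm_num)]
    nlinarith [Real.pi_pos]
  set τ : ℝ := tauN n with hτdef
  set U : ℂ → ℂ := Uth v th with hU
  have hUs : Sym n U := Uth_sym hv.sym th
  obtain ⟨g, hg⟩ := hUs.legs hn
  have hmean : ∫ y in (-τ)..τ, (U ⟨1, y⟩).re = 2 * τ := Uth_mean hv th
  set W : ℂ → ℂ := WW τ U p with hW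
  have hWi : ∀ i, ∀ z ∈ Cn (p i) (p (i + 1)), W z = Wi τ U (p i) (p (i + 1)) z :=
    fun i z hz => WW_eq hn hτ hg hc hz
  obtain ⟨L, hL⟩ := WW_lipschitz hn hτ hg hUs.smooth hc
  -- the closure of the domain
  have hcl : closure Ω ⊆ convexHull ℝ (range P') := by
    apply closure_minimal hO
    exact ((finite_range P').isCompact_convexHull ℝ).isClosed
  have hclp : ∀ z ∈ closure Ω, z - c ∈ convexHull ℝ (range p) := fun z hz =>
    hull_translate P' c (hcl hz)
  have hvol : volume Ω ≠ ⊤ := h.bounded.measure_lt_top.ne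
  have hseg : ∀ i, segment ℝ (P i) (P (i + 1)) ⊆ closure Ω := by
    intro i
    have h1 : segment ℝ (P i) (P (i + 1)) ⊆ frontier Ω := by
      rw [h.frontier_eq]
      exact subset_iUnion (fun i => segment ℝ (P i) (P (i + 1))) i
    exact h1.trans frontier_subset_closure
  -- the two test functions
  have hLW : LipschitzOnWith L (fun z => W (z - c)) (closure Ω) := by
    apply LipschitzOnWith.of_dist_le_mul
    intro x hx y hy
    have := hL.dist_le_mul _ (hclp x hx) _ (hclp y hy)
    rwa [dist_sub_right] at this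
  have hLre : LipschitzOnWith L (fun z => (W (z - c)).re) (closure Ω) := by
    apply LipschitzOnWith.of_dist_le_mul
    intro x hx y hy
    refine le_trans ?_ (hLW.dist_le_mul _ hx _ hy)
    rw [Real.dist_eq, dist_eq_norm, ← Complex.sub_re]
    exact Complex.abs_re_le_norm _
  have hLim : LipschitzOnWith L (fun z => (W (z - c)).im) (closure Ω) := by
    apply LipschitzOnWith.of_dist_le_mul
    intro x hx y hy
    refine le_trans ?_ (hLW.dist_le_mul _ hx _ hy)
    rw [Real.dist_eq, dist_eq_norm, ← Complex.sub_im]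
    exact Complex.abs_im_le_norm _
  -- boundary integrals
  have hseg' : ∀ i, segment ℝ (p i) (p (i + 1)) ⊆ Cn (p i) (p (i + 1)) := fun i =>
    segment_sub_Cn (hc.pos i)
  have hbd : ∀ F : ℂ → ℝ, bdN P (fun z => F (W (z - c))) =
      ∑ i, segInt (p i) (p (i + 1)) (fun z => F (Wi τ U (p i) (p (i + 1)) z)) := by
    intro F
    rw [← hb, bdN_translate P' c (fun z => F (W z))]
    apply Finset.sum_congr rfl
    intro i _
    apply segInt_congr
    intro z hz
    show F (W z) = _
    rw [hWi i z (hseg' i hz)]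
  have hper : perN P ≠ 0 := by
    have h1 : perN P = ∑ i, dist (P' i) (P' (i + 1)) := by
      unfold perN
      rw [← hb]
      unfold bdN
      exact Finset.sum_congr rfl fun i _ => segInt_one _ _
    rw [h1]
    apply ne_of_gt
    apply Finset.sum_pos
    · intro i _
      rw [dist_pos]
      intro h2
      have h3 := hc.pos i
      have h4 : p i = p (i + 1) := by rw [hp]; simp only [h2]
      rw [h4, cr_self] at h3
      exact lt_irrefl _ h3
    · exact ⟨0, Finset.mem_univ _⟩
  have hzre : bdN P (fun z => (W (z - c)).re) = 0 := by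
    rw [hbd (fun w => w.re)]
    have h1 : ∀ i, segInt (p i) (p (i + 1)) (fun z => (Wi τ U (p i) (p (i + 1)) z).re) =
        segInt (p i) (p (i + 1)) (fun z => z.re) := fun i =>
      side_mean_re hUs hτ (hc.pos i) hmean
    simp only [h1]
    have h2 : ∑ i, segInt (p i) (p (i + 1)) (fun z => z.re) = bdN p (fun z => z.re) := rfl
    rw [h2, hp, ← bdN_translate P' c (fun z => z.re), hb]
    have h3 : (fun z : ℂ => (z - c).re) = fun z => z.re - c.re := by funext z; simp
    rw [h3, bdN_eq_bdF, bdF_sub_const Complex.continuous_re, ← bdN_eq_bdF, ← bdN_eq_bdF]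
    have h4 : c.re = bdN P (fun z => z.re) / perN P := by rw [hcdef]; rfl
    have h5 : bdN P (fun _ => 1) = perN P := rfl
    rw [h4, h5]
    field_simp
    ring
  have hzim : bdN P (fun z => (W (z - c)).im) = 0 := by
    rw [hbd (fun w => w.im)]
    have h1 : ∀ i, segInt (p i) (p (i + 1)) (fun z => (Wi τ U (p i) (p (i + 1)) z).im) =
        segInt (p i) (p (i + 1)) (fun z => z.im) := fun i =>
      side_mean_im hUs hτ (hc.pos i) hmean
    simp only [h1]
    have h2 : ∑ i, segInt (p i) (p (i + 1)) (fun z => z.im) = bdN p (fun z => z.im) := rfl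
    rw [h2, hp, ← bdN_translate P' c (fun z => z.im), hb]
    have h3 : (fun z : ℂ => (z - c).im) = fun z => z.im - c.im := by funext z; simp
    rw [h3, bdN_eq_bdF, bdF_sub_const Complex.continuous_im, ← bdN_eq_bdF, ← bdN_eq_bdF]
    have h4 : c.im = bdN P (fun z => z.im) / perN P := by rw [hcdef]; rfl
    have h5 : bdN P (fun _ => 1) = perN P := rfl
    rw [h4, h5]
    field_simp
    ring
  -- the two inequalities
  have A1 := sigF_mul_le_on hLre k h.isOpen hvol (a := P) (b := fun i => P (i + 1)) hseg hzre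
  have A2 := sigF_mul_le_on hLim k h.isOpen hvol (a := P) (b := fun i => P (i + 1)) hseg hzim
  rw [← sigN_eq_sigF, ← bdN_eq_bdF] at A1 A2
  have hCi : ∀ i, ContDiff ℝ 1 (Wi τ U (p i) (p (i + 1))) := fun i => Wi_contDiff hUs.smooth _ _
  have B1 : ∫ z in Ω, dens (fun z => (W (z - c)).re) z ≤
      ∑ i, ∫ z in OTr (p i) (p (i + 1)), grad2 (fun z => (Wi τ U (p i) (p (i + 1)) z).re) z := by
    have := energy_le hn hc c h.isOpen (fun z hz => hclp z (subset_closure hz))
      (φ := fun z => (W z).re) (ψ := fun i z => (Wi τ U (p i) (p (i + 1)) z).re)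
      (fun i => Complex.reCLM.contDiff.comp (hCi i))
      (fun i z hz => by rw [hWi i z (Tr_sub_Cn _ _ (OTr_sub_Tr _ _ hz))])
    exact this
  have B2 : ∫ z in Ω, dens (fun z => (W (z - c)).im) z ≤
      ∑ i, ∫ z in OTr (p i) (p (i + 1)), grad2 (fun z => (Wi τ U (p i) (p (i + 1)) z).im) z := by
    have := energy_le hn hc c h.isOpen (fun z hz => hclp z (subset_closure hz))
      (φ := fun z => (W z).im) (ψ := fun i z => (Wi τ U (p i) (p (i + 1)) z).im)
      (fun i => Complex.imCLM.contDiff.comp (hCi i))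
      (fun i z hz => by rw [hWi i z (Tr_sub_Cn _ _ (OTr_sub_Tr _ _ hz))])
    exact this
  -- the energy
  have hE : (∑ i, ∫ z in OTr (p i) (p (i + 1)),
        grad2 (fun z => (Wi τ U (p i) (p (i + 1)) z).re) z) +
      (∑ i, ∫ z in OTr (p i) (p (i + 1)),
        grad2 (fun z => (Wi τ U (p i) (p (i + 1)) z).im) z) =
      EN τ (datOf τ v) (fun i => sH (p i) (p (i + 1))) (fun i => sK (p i) (p (i + 1)))
        (fun i => sL τ (p i) (p (i + 1))) th := by
    have hi : ∀ i, (∫ z in OTr (p i) (p (i + 1)),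
        grad2 (fun z => (Wi τ U (p i) (p (i + 1)) z).re) z) +
        (∫ z in OTr (p i) (p (i + 1)), grad2 (fun z => (Wi τ U (p i) (p (i + 1)) z).im) z) =
        ∫ z in OTr (p i) (p (i + 1)), fr2 (Wi τ U (p i) (p (i + 1))) z := by
      intro i
      have I1 : IntegrableOn (grad2 (fun z => (Wi τ U (p i) (p (i + 1)) z).re))
          (OTr (p i) (p (i + 1))) :=
        ((C_continuous_grad2 (Complex.reCLM.contDiff.comp (hCi i))).continuousOn.integrableOn_compact
          (isCompact_Tr (hc.pos i))).mono_set (OTr_sub_Tr _ _)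
      have I2 : IntegrableOn (grad2 (fun z => (Wi τ U (p i) (p (i + 1)) z).im))
          (OTr (p i) (p (i + 1))) :=
        ((C_continuous_grad2 (Complex.imCLM.contDiff.comp (hCi i))).continuousOn.integrableOn_compact
          (isCompact_Tr (hc.pos i))).mono_set (OTr_sub_Tr _ _)
      rw [← integral_add I1 I2]
      apply integral_congr_ae
      filter_upwards with z
      exact grad2_add (((hCi i).differentiable (by norm_num)) z)
    rw [← Finset.sum_add_distrib]
    simp only [hi]
    have hi2 : ∀ i, ∫ z in OTr (p i) (p (i + 1)), fr2 (Wi τ U (p i) (p (i + 1))) z =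
        _ := fun i => tri_energy hn hv th (hc.pos i)
    rw [Finset.sum_congr rfl fun i _ => hi2 i]
    unfold EN
    rw [Finset.sum_add_distrib, Finset.mul_sum, Finset.mul_sum]
  -- the boundary norm
  have hM : bdN P (fun z => (W (z - c)).re ^ 2) + bdN P (fun z => (W (z - c)).im ^ 2) =
      MN τ (datOf τ v) (fun i => sH (p i) (p (i + 1))) (fun i => sK (p i) (p (i + 1)))
        (fun i => sL τ (p i) (p (i + 1))) th := by
    rw [hbd (fun w => w.re ^ 2), hbd (fun w => w.im ^ 2), ← Finset.sum_add_distrib]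
    rw [Finset.sum_congr rfl fun i _ => side_sq hUs hτ (hc.pos i)]
    rw [hU, Uth_sq_re hv th, Uth_sq_im hv th]
    unfold MN
    rw [Finset.mul_sum, Finset.mul_sum, Finset.mul_sum, ← Finset.sum_add_distrib,
      ← Finset.sum_add_distrib]
    apply Finset.sum_congr rfl
    intro i _
    ring
  rw [← hM, ← hE, mul_add]
  linarith

end Pool.Agent.NGN
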