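import Pool.Agent.NGN.C.Fan

/-!
# The linear maps from the sector of the regular polygon to the triangles

MP_b1ddb4_an, project NGN, part C.
-/

set_option autoImplicit false

noncomputable section

namespace Pool.Agent.NGN

open Filter Topology Set MeasureTheory

/-- `z ↦ cr P z` as a continuous linear map. -/
def crL (P : ℂ) : ℂ →L[ℝ] ℝ := P.re • Complex.imCLM - P.im • Complex.reCLM

theorem crL_apply (P z : ℂ) : crL P z = cr P z := by
  simp [crL, cr]

/-- The linear map with `1 ↦ (P+Q)/2` and `I ↦ (Q-P)/(2 τ)`. -/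
def Am (τ : ℝ) (P Q : ℂ) : ℂ →L[ℝ] ℂ :=
  Complex.reCLM.smulRight (((1 / 2 : ℝ) : ℂ) * (P + Q)) +
    Complex.imCLM.smulRight (((1 / (2 * τ) : ℝ) : ℂ) * (Q - P))

theorem Am_apply (τ : ℝ) (P Q z : ℂ) :
    Am τ P Q z = (z.re : ℂ) * (((1 / 2 : ℝ) : ℂ) * (P + Q)) +
      (z.im : ℂ) * (((1 / (2 * τ) : ℝ) : ℂ) * (Q - P)) := by
  simp [Am, Complex.real_smul]

/-- The inverse map. -/
def Bm (τ : ℝ) (P Q : ℂ) : ℂ →L[ℝ] ℂ :=
  (((cr P Q)⁻¹) • (crL P - crL Q)).smulRight (1 : ℂ) +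
    ((τ * (cr P Q)⁻¹) • (crL P + crL Q)).smulRight Complex.I

theorem Bm_apply (τ : ℝ) (P Q z : ℂ) : Bm τ P Q z =
    (((cr P z + cr z Q) / cr P Q : ℝ) : ℂ) +
      ((τ * (cr P z - cr z Q) / cr P Q : ℝ) : ℂ) * Complex.I := by
  have h1 : (cr P Q)⁻¹ * (cr P z - cr Q z) = (cr P z + cr z Q) / cr P Q := by
    rw [cr_swap z Q]; ring
  have h2 : (τ * (cr P Q)⁻¹) * (cr P z + cr Q z) = τ * (cr P z - cr z Q) / cr P Q := by
    rw [cr_swap z Q]; ring
  rw [← h1, ← h2]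
  simp only [Bm, add_apply, ContinuousLinearMap.smulRight_apply,
    smul_apply, sub_apply, crL_apply, smul_eq_mul,
    Complex.real_smul, mul_one]

theorem Bm_re (τ : ℝ) (P Q z : ℂ) : (Bm τ P Q z).re = (cr P z + cr z Q) / cr P Q := by
  rw [Bm_apply, Complex.add_re, Complex.re_ofReal_mul, Complex.I_re, mul_zero, add_zero,
    Complex.ofReal_re]

theorem Bm_im (τ : ℝ) (P Q z : ℂ) : (Bm τ P Q z).im = τ * (cr P z - cr z Q) / cr P Q := by
  rw [Bm_apply, Complex.add_im, Complex.im_ofReal_mul, Complex.I_im, mul_one,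
    Complex.ofReal_im, zero_add]

theorem Am_re (τ : ℝ) (P Q z : ℂ) :
    (Am τ P Q z).re = z.re * (P.re + Q.re) / 2 + z.im * (Q.re - P.re) / (2 * τ) := by
  rw [Am_apply]
  simp only [Complex.add_re, Complex.mul_re, Complex.ofReal_re, Complex.ofReal_im, Complex.add_im,
    Complex.sub_re, Complex.sub_im, Complex.mul_im]
  ring

theorem Am_im (τ : ℝ) (P Q z : ℂ) :
    (Am τ P Q z).im = z.re * (P.im + Q.im) / 2 + z.im * (Q.im - P.im) / (2 * τ) := by
  rw [Am_apply]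
  simp only [Complex.add_im, Complex.mul_im, Complex.ofReal_re, Complex.ofReal_im, Complex.add_re,
    Complex.sub_re, Complex.sub_im, Complex.mul_re]
  ring

theorem Bm_Am {τ : ℝ} (hτ : 0 < τ) {P Q : ℂ} (h : 0 < cr P Q) (z : ℂ) :
    Bm τ P Q (Am τ P Q z) = z := by
  have h' : P.re * Q.im - P.im * Q.re ≠ 0 := h.ne'
  apply Complex.ext
  · rw [Bm_re]
    unfold cr
    rw [Am_re, Am_im]
    field_simp
    ring
  · rw [Bm_im]
    unfold cr
    rw [Am_re, Am_im]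
    field_simp
    ring

theorem Am_Bm {τ : ℝ} (hτ : 0 < τ) {P Q : ℂ} (h : 0 < cr P Q) (z : ℂ) :
    Am τ P Q (Bm τ P Q z) = z := by
  have h' : P.re * Q.im - P.im * Q.re ≠ 0 := h.ne'
  apply Complex.ext
  · rw [Am_re, Bm_re, Bm_im]
    unfold cr
    field_simp
    ring
  · rw [Am_im, Bm_re, Bm_im]
    unfold cr
    field_simp
    ring

/-- The closed sector of the regular polygon. -/
def T0 (τ : ℝ) : Set ℂ := {z | |z.im| ≤ τ * z.re ∧ z.re ≤ 1}

theorem isClosed_T0 (τ : ℝ) : IsClosed (T0 τ) := by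
  have h1 : IsClosed {z : ℂ | |z.im| ≤ τ * z.re} :=
    isClosed_le (Complex.continuous_im.abs) (continuous_const.mul Complex.continuous_re)
  have h2 : IsClosed {z : ℂ | z.re ≤ 1} := isClosed_le Complex.continuous_re continuous_const
  exact h1.inter h2

theorem C_isOpen_sec (τ : ℝ) : IsOpen (sec τ) := by
  have h1 : IsOpen {z : ℂ | |z.im| < τ * z.re} :=
    isOpen_lt (Complex.continuous_im.abs) (continuous_const.mul Complex.continuous_re)
  have h2 : IsOpen {z : ℂ | z.re < 1} := isOpen_lt Complex.continuous_re continuous_const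
  have h3 : IsOpen {z : ℂ | 0 < z.re} := isOpen_lt continuous_const Complex.continuous_re
  exact h3.inter (h2.inter h1)

theorem sec_sub_T0 (τ : ℝ) : sec τ ⊆ T0 τ := fun _ hz => ⟨hz.2.2.le, hz.2.1.le⟩

theorem T0_bounds {τ : ℝ} (hτ : 0 < τ) {z : ℂ} (hz : z ∈ T0 τ) :
    0 ≤ z.re ∧ z.re ≤ 1 ∧ |z.im| ≤ τ := by
  have h1 := hz.1
  have h2 := hz.2
  have h0 : 0 ≤ z.re := by
    have : 0 ≤ τ * z.re := le_trans (abs_nonneg _) h1
    exact nonneg_of_mul_nonneg_right this hτ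
  refine ⟨h0, h2, le_trans h1 ?_⟩
  nlinarith

theorem isCompact_T0 {τ : ℝ} (hτ : 0 < τ) : IsCompact (T0 τ) := by
  apply Metric.isCompact_of_isClosed_isBounded (isClosed_T0 τ)
  apply (Metric.isBounded_closedBall (x := (0 : ℂ)) (r := 1 + τ)).subset
  intro z hz
  obtain ⟨h0, h1, h2⟩ := T0_bounds hτ hz
  rw [mem_closedBall_zero_iff]
  calc ‖z‖ ≤ |z.re| + |z.im| := Complex.norm_le_abs_re_add_abs_im z
    _ ≤ 1 + τ := by rw [abs_of_nonneg h0]; linarith

theorem convex_T0 (τ : ℝ) : Convex ℝ (T0 τ) := by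
  intro x hx y hy a b ha hb hab
  have h1 := abs_le.1 hx.1
  have h2 := abs_le.1 hy.1
  have h3 := hx.2
  have h4 := hy.2
  constructor
  · rw [abs_le]
    simp only [Complex.add_im, Complex.real_smul, Complex.mul_im, Complex.ofReal_re,
      Complex.ofReal_im, zero_mul, add_zero, Complex.add_re, Complex.mul_re, sub_zero]
    constructor
    · nlinarith [mul_le_mul_of_nonneg_left h1.1 ha, mul_le_mul_of_nonneg_left h2.1 hb]
    · nlinarith [mul_le_mul_of_nonneg_left h1.2 ha, mul_le_mul_of_nonneg_left h2.2 hb]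
  · simp only [Complex.real_smul, Complex.ofReal_re,
      Complex.ofReal_im, zero_mul, Complex.add_re, Complex.mul_re, sub_zero]
    nlinarith [mul_le_mul_of_nonneg_left h3 ha, mul_le_mul_of_nonneg_left h4 hb]

theorem cr_Am_left {τ : ℝ} (hτ : 0 < τ) (P Q z : ℂ) :
    cr P (Am τ P Q z) = (τ * z.re + z.im) * (cr P Q / (2 * τ)) := by
  unfold cr; rw [Am_re, Am_im]; field_simp; ring

theorem cr_Am_right {τ : ℝ} (hτ : 0 < τ) (P Q z : ℂ) :
    cr (Am τ P Q z) Q = (τ * z.re - z.im) * (cr P Q / (2 * τ)) := by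
  unfold cr; rw [Am_re, Am_im]; field_simp; ring

theorem cr_Am_sum {τ : ℝ} (hτ : 0 < τ) (P Q z : ℂ) :
    cr P (Am τ P Q z) + cr (Am τ P Q z) Q = z.re * cr P Q := by
  rw [cr_Am_left hτ, cr_Am_right hτ]; field_simp; ring

theorem Am_mem_Tr {τ : ℝ} (hτ : 0 < τ) {P Q : ℂ} (h : 0 < cr P Q) {z : ℂ} :
    Am τ P Q z ∈ Tr P Q ↔ z ∈ T0 τ := by
  have h2 : 0 < cr P Q / (2 * τ) := by positivity
  unfold Tr T0
  simp only [mem_ofPred_eq]
  rw [cr_Am_sum hτ, cr_Am_left hτ, cr_Am_right hτ, mul_nonneg_iff_of_pos_right h2,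
    mul_nonneg_iff_of_pos_right h2, abs_le]
  have a3 : z.re * cr P Q ≤ cr P Q ↔ z.re ≤ 1 := mul_le_iff_le_one_left h
  rw [a3]
  constructor
  · rintro ⟨b1, b2, b3⟩
    exact ⟨⟨by linarith, by linarith⟩, b3⟩
  · rintro ⟨⟨b1, b2⟩, b3⟩
    exact ⟨by linarith, by linarith, b3⟩

theorem Am_mem_OTr {τ : ℝ} (hτ : 0 < τ) {P Q : ℂ} (h : 0 < cr P Q) {z : ℂ} :
    Am τ P Q z ∈ OTr P Q ↔ z ∈ sec τ := by
  have h2 : 0 < cr P Q / (2 * τ) := by positivity
  unfold OTr sec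
  simp only [mem_ofPred_eq]
  rw [cr_Am_sum hτ, cr_Am_left hτ, cr_Am_right hτ, mul_pos_iff_of_pos_right h2,
    mul_pos_iff_of_pos_right h2, abs_lt]
  have a3 : z.re * cr P Q < cr P Q ↔ z.re < 1 := mul_lt_iff_lt_one_left h
  rw [a3]
  constructor
  · rintro ⟨b1, b2, b3⟩
    refine ⟨?_, b3, by linarith, by linarith⟩
    have : 0 < τ * z.re := by linarith
    exact (pos_iff_pos_of_mul_pos this).1 hτ
  · rintro ⟨b0, b3, b1, b2⟩
    exact ⟨by linarith, by linarith, b3⟩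

theorem Tr_eq_image {τ : ℝ} (hτ : 0 < τ) {P Q : ℂ} (h : 0 < cr P Q) :
    Tr P Q = Am τ P Q '' T0 τ := by
  ext z
  constructor
  · intro hz
    refine ⟨Bm τ P Q z, ?_, Am_Bm hτ h z⟩
    rw [← Am_mem_Tr hτ h, Am_Bm hτ h]
    exact hz
  · rintro ⟨w, hw, rfl⟩
    exact (Am_mem_Tr hτ h).2 hw

theorem OTr_eq_image {τ : ℝ} (hτ : 0 < τ) {P Q : ℂ} (h : 0 < cr P Q) :
    OTr P Q = Am τ P Q '' sec τ := by
  ext z
  constructor
  · intro hz
    refine ⟨Bm τ P Q z, ?_, Am_Bm hτ h z⟩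
    rw [← Am_mem_OTr hτ h, Am_Bm hτ h]
    exact hz
  · rintro ⟨w, hw, rfl⟩
    exact (Am_mem_OTr hτ h).2 hw

theorem isCompact_Tr {P Q : ℂ} (h : 0 < cr P Q) : IsCompact (Tr P Q) := by
  rw [Tr_eq_image one_pos h]
  exact (isCompact_T0 one_pos).image (Am 1 P Q).continuous

theorem convex_Tr {P Q : ℂ} (h : 0 < cr P Q) : Convex ℝ (Tr P Q) := by
  rw [Tr_eq_image one_pos h]
  exact (convex_T0 1).linear_image (Am 1 P Q).toLinearMap

theorem OTr_sub_Tr (P Q : ℂ) : OTr P Q ⊆ Tr P Q := fun _ hz => ⟨hz.1.le, hz.2.1.le, hz.2.2.le⟩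

/-- A line is a null set. -/
theorem volume_line {P : ℂ} (hP : P ≠ 0) (c : ℝ) : volume {z : ℂ | cr P z = c} = 0 := by
  have hne : (crL P).toLinearMap ≠ 0 := by
    intro h
    have h1 : crL P (P * Complex.I) = 0 := by
      have := congrArg (fun f : ℂ →ₗ[ℝ] ℝ => f (P * Complex.I)) h
      simpa using this
    rw [crL_apply] at h1
    have h2 : cr P (P * Complex.I) = P.re ^ 2 + P.im ^ 2 := by
      simp [cr]; ring
    rw [h2] at h1
    apply hP
    apply Complex.ext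
    · simp only [Complex.zero_re]; nlinarith [sq_nonneg P.re, sq_nonneg P.im]
    · simp only [Complex.zero_im]; nlinarith [sq_nonneg P.re, sq_nonneg P.im]
  by_cases hex : ∃ z0 : ℂ, cr P z0 = c
  · obtain ⟨z0, hz0⟩ := hex
    have hk : LinearMap.ker (crL P).toLinearMap ≠ ⊤ := fun h => hne (LinearMap.ker_eq_top.1 h)
    have h1 : volume ((LinearMap.ker (crL P).toLinearMap : Submodule ℝ ℂ) : Set ℂ) = 0 :=
      Measure.addHaar_submodule volume _ hk
    have h2 : {z : ℂ | cr P z = c} =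
        (fun z => z + (-z0)) ⁻¹' ((LinearMap.ker (crL P).toLinearMap : Submodule ℝ ℂ) : Set ℂ) := by
      ext z
      simp only [mem_ofPred_eq, mem_preimage, SetLike.mem_coe, LinearMap.mem_ker,
        ContinuousLinearMap.coe_coe, crL_apply]
      rw [← sub_eq_add_neg, cr_sub_right, hz0, sub_eq_zero]
    rw [h2, measure_preimage_add_right, h1]
  · have : {z : ℂ | cr P z = c} = ∅ := by
      ext z
      simp only [mem_ofPred_eq, mem_empty_iff_false, iff_false]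
      exact fun h => hex ⟨z, h⟩
    rw [this, measure_empty]

theorem volume_Tr_diff {P Q : ℂ} (h : 0 < cr P Q) : volume (Tr P Q \ OTr P Q) = 0 := by
  have hP : P ≠ 0 := by rintro rfl; rw [cr_zero_left] at h; exact lt_irrefl _ h
  have hQ : Q ≠ 0 := by rintro rfl; rw [cr_zero_right] at h; exact lt_irrefl _ h
  have hPQ : P - Q ≠ 0 := by
    intro h1
    rw [sub_eq_zero] at h1
    rw [h1, cr_self] at h
    exact lt_irrefl _ h
  have hsub : Tr P Q \ OTr P Q ⊆
      {z | cr P z = 0} ∪ ({z | cr Q z = 0} ∪ {z | cr (P - Q) z = cr P Q}) := by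
    rintro z ⟨hz1, hz2⟩
    by_contra hcon
    simp only [mem_union, mem_ofPred_eq, not_or] at hcon
    obtain ⟨c1, c2, c3⟩ := hcon
    apply hz2
    refine ⟨lt_of_le_of_ne hz1.1 (Ne.symm c1), lt_of_le_of_ne hz1.2.1 ?_,
      lt_of_le_of_ne hz1.2.2 ?_⟩
    · intro h1
      apply c2
      rw [cr_swap, ← h1, neg_zero]
    · intro h1
      apply c3
      rw [cr_sub_left, cr_swap Q z]
      linarith
  refine measure_mono_null hsub ?_
  rw [measure_union_null_iff, measure_union_null_iff]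
  exact ⟨volume_line hP 0, volume_line hQ 0, volume_line hPQ _⟩

theorem Am_det (τ : ℝ) (P Q : ℂ) : (Am τ P Q).det = cr P Q / (2 * τ) := by
  rw [ContinuousLinearMap.det, ← LinearMap.det_toMatrix Complex.basisOneI, Matrix.det_fin_two]
  simp only [LinearMap.toMatrix_apply, Complex.coe_basisOneI_repr, Complex.coe_basisOneI,
    ContinuousLinearMap.coe_coe, Matrix.cons_val_zero, Matrix.cons_val_one, Am_re, Am_im,
    Complex.one_re, Complex.one_im, Complex.I_re, Complex.I_im]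
  unfold cr
  by_cases h : τ = 0
  · simp [h]
  · field_simp
    ring

/-- Change of variables. -/
theorem integral_OTr {τ : ℝ} (hτ : 0 < τ) {P Q : ℂ} (h : 0 < cr P Q) (F : ℂ → ℝ) :
    ∫ z in OTr P Q, F z = cr P Q / (2 * τ) * ∫ z in sec τ, F (Am τ P Q z) := by
  have h2 : 0 < cr P Q / (2 * τ) := by positivity
  rw [OTr_eq_image hτ h]
  rw [integral_image_eq_integral_abs_det_fderiv_smul volume (C_isOpen_sec τ).measurableSet
    (f := Am τ P Q) (f' := fun _ => Am τ P Q)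
    (fun x _ => (Am τ P Q).hasFDerivAt.hasFDerivWithinAt)
    (fun x _ y _ hxy => by rw [← Bm_Am hτ h x, hxy, Bm_Am hτ h]) F]
  simp only [Am_det, abs_of_pos h2, smul_eq_mul]
  rw [integral_const_mul]

end Pool.Agent.NGN
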