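import Pool.Agent.NGN.C.Energy

/-!
# Signs of the numbers of a field

MP_b1ddb4_an, project NGN, part C.
-/

set_option autoImplicit false

noncomputable section

namespace Pool.Agent.NGN

open Filter Topology Set MeasureTheory

/-- The energy of one transplanted sector is nonnegative. -/
theorem C_pos {tau : ℝ} (ht : 0 < tau) {v : ℂ → ℂ} (hv : ContDiff ℝ 1 v) {ka la : ℝ}
    (hl : 0 < la) :
    0 ≤ (datOf tau v).a + (datOf tau v).b + ka ^ 2 * (datOf tau v).ga + la ^ 2 * (datOf tau v).f
      + (1 + ka ^ 2) ^ 2 * (datOf tau v).d / la ^ 2 := by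
  have d1 := continuous_fd_re hv 1
  have d2 := continuous_fd_im hv 1
  have d3 := continuous_fd_re hv Complex.I
  have d4 := continuous_fd_im hv Complex.I
  have h0 : 0 ≤ ∫ z in sec tau, eV ka la (fderiv ℝ v z 1).re (fderiv ℝ v z Complex.I).im
      (fderiv ℝ v z Complex.I).re (fderiv ℝ v z 1).im :=
    integral_nonneg fun z => eV_nonneg hl _ _ _ _
  have e3 : (fun z => eV ka la (fderiv ℝ v z 1).re
      (fderiv ℝ v z Complex.I).im (fderiv ℝ v z Complex.I).re
        (fderiv ℝ v z 1).im) = fun z =>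
      ((fderiv ℝ v z 1).re ^ 2 + (fderiv ℝ v z Complex.I).im ^ 2 +
      ka ^ 2 * ((fderiv ℝ v z 1).re - (fderiv ℝ v z Complex.I).im) ^ 2 +
      (-(2 * ka ^ 2)) * ((fderiv ℝ v z Complex.I).re * (fderiv ℝ v z 1).im) +
      la ^ 2 * (fderiv ℝ v z 1).im ^ 2 +
      ((1 + ka ^ 2) ^ 2 / la ^ 2) * (fderiv ℝ v z Complex.I).re ^ 2) := by
    funext z
    unfold eV
    ring
  have e : ∫ z in sec tau, eV ka la (fderiv ℝ v z 1).re (fderiv ℝ v z Complex.I).im
      (fderiv ℝ v z Complex.I).re (fderiv ℝ v z 1).im =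
      (datOf tau v).a + (datOf tau v).b + ka ^ 2 * (datOf tau v).ga + la ^ 2 * (datOf tau v).f
      + (1 + ka ^ 2) ^ 2 * (datOf tau v).d / la ^ 2 := by
    rw [e3, integral_add, integral_add, integral_add, integral_add, integral_add,
      integral_const_mul, integral_const_mul, integral_const_mul, integral_const_mul]
    rotate_left
    all_goals first | exact sec_integrableOn ht (by fun_prop) | skip
    simp only [datOf]
    ring
  rwa [e] at h0

/-- Signs, and the bound for `ga`. -/
theorem C_dat {tau : ℝ} (ht : 0 < tau) {v : ℂ → ℂ} (hv : ContDiff ℝ 1 v) :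
    0 ≤ (datOf tau v).a ∧ 0 ≤ (datOf tau v).b ∧ 0 ≤ (datOf tau v).d ∧ 0 ≤ (datOf tau v).f ∧
    0 ≤ (datOf tau v).M1 ∧ 0 ≤ (datOf tau v).M2 ∧
    (datOf tau v).ga ≤ 2 * ((datOf tau v).a + (datOf tau v).b) + (datOf tau v).d
      + (datOf tau v).f := by
  have d1 := continuous_fd_re hv 1
  have d2 := continuous_fd_im hv 1
  have d3 := continuous_fd_re hv Complex.I
  have d4 := continuous_fd_im hv Complex.I
  refine ⟨integral_nonneg fun z => sq_nonneg _, integral_nonneg fun z => sq_nonneg _,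
    integral_nonneg fun z => sq_nonneg _, integral_nonneg fun z => sq_nonneg _,
    intervalIntegral.integral_nonneg (by linarith) fun y _ => sq_nonneg _,
    intervalIntegral.integral_nonneg (by linarith) fun y _ => sq_nonneg _, ?_⟩
  have h0 : 0 ≤ ∫ z in sec tau, ((fderiv ℝ v z 1).re + (fderiv ℝ v z Complex.I).im) ^ 2 :=
    integral_nonneg fun z => sq_nonneg _
  have h1 : 0 ≤ ∫ z in sec tau, ((fderiv ℝ v z Complex.I).re + (fderiv ℝ v z 1).im) ^ 2 :=
    integral_nonneg fun z => sq_nonneg _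
  have e0 : ∫ z in sec tau, ((fderiv ℝ v z 1).re + (fderiv ℝ v z Complex.I).im) ^ 2 =
      2 * ((datOf tau v).a + (datOf tau v).b) -
        ∫ z in sec tau, ((fderiv ℝ v z 1).re - (fderiv ℝ v z Complex.I).im) ^ 2 := by
    have e3 : (fun z => ((fderiv ℝ v z 1).re + (fderiv ℝ v z Complex.I).im) ^ 2) = fun z =>
        2 * (fderiv ℝ v z 1).re ^ 2 + 2 * (fderiv ℝ v z Complex.I).im ^ 2 +
        (-1) * ((fderiv ℝ v z 1).re - (fderiv ℝ v z Complex.I).im) ^ 2 := by
      funext z; ring
    rw [e3, integral_add, integral_add, integral_const_mul, integral_const_mul,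
      integral_const_mul]
    rotate_left
    all_goals first | exact sec_integrableOn ht (by fun_prop) | skip
    simp only [datOf]
    ring
  have e1 : ∫ z in sec tau, ((fderiv ℝ v z Complex.I).re + (fderiv ℝ v z 1).im) ^ 2 =
      (datOf tau v).d + (datOf tau v).f + 2 *
        ∫ z in sec tau, (fderiv ℝ v z Complex.I).re * (fderiv ℝ v z 1).im := by
    have e3 : (fun z => ((fderiv ℝ v z Complex.I).re + (fderiv ℝ v z 1).im) ^ 2) = fun z =>
        (fderiv ℝ v z Complex.I).re ^ 2 + (fderiv ℝ v z 1).im ^ 2 +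
        2 * ((fderiv ℝ v z Complex.I).re * (fderiv ℝ v z 1).im) := by
      funext z; ring
    rw [e3, integral_add, integral_add, integral_const_mul]
    rotate_left
    all_goals first | exact sec_integrableOn ht (by fun_prop) | skip
    simp only [datOf]
  have hga : (datOf tau v).ga =
      (∫ z in sec tau, ((fderiv ℝ v z 1).re - (fderiv ℝ v z Complex.I).im) ^ 2)
        - 2 * ∫ z in sec tau, (fderiv ℝ v z Complex.I).re * (fderiv ℝ v z 1).im := rfl
  rw [e0] at h0
  rw [e1] at h1
  rw [hga]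
  linarith

end Pool.Agent.NGN
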