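import Pool.Agent.NGN.C.Trans

/-!
# Boundary integrals of the transplanted field

MP_b1ddb4_an, project NGN, part C.
-/

set_option autoImplicit false

noncomputable section

namespace Pool.Agent.NGN

open Filter Topology Set MeasureTheory Pool.Agent.Stk

/-! ### the numbers of a side -/

theorem C_normSq_sub (P Q : ℂ) : ‖Q - P‖ ^ 2 = (Q.re - P.re) ^ 2 + (Q.im - P.im) ^ 2 := by
  rw [Complex.sq_norm, Complex.normSq_apply, Complex.sub_re, Complex.sub_im]; ring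

theorem C_norm_sub_pos {P Q : ℂ} (h : 0 < cr P Q) : 0 < ‖Q - P‖ := by
  rw [norm_pos_iff, sub_ne_zero]
  rintro rfl
  rw [cr_self] at h
  exact lt_irrefl _ h

theorem side_hl {τ : ℝ} {P Q : ℂ} (h : 0 < cr P Q) :
    dist P Q / (2 * τ) = sH P Q * sL τ P Q := by
  have h1 := C_norm_sub_pos h
  unfold sH sL
  rw [dist_comm, dist_eq_norm]
  by_cases hτ : τ = 0
  · simp [hτ]
  · field_simp

theorem side_mm {P Q : ℂ} (h : 0 < cr P Q) :
    sH P Q ^ 2 * (1 + sK P Q ^ 2) = ((P.re + Q.re) ^ 2 + (P.im + Q.im) ^ 2) / 4 := by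
  have h1 := C_norm_sub_pos h
  have h2 := C_normSq_sub P Q
  have h3 : 0 < ‖Q - P‖ ^ 2 := by positivity
  have hP : ‖P‖ ^ 2 = P.re ^ 2 + P.im ^ 2 := by
    rw [Complex.sq_norm, Complex.normSq_apply]; ring
  have hQ : ‖Q‖ ^ 2 = Q.re ^ 2 + Q.im ^ 2 := by
    rw [Complex.sq_norm, Complex.normSq_apply]; ring
  unfold sH sK
  rw [div_pow, hP, hQ, div_mul_eq_mul_div, div_eq_iff h3.ne', h2]
  have h4 : cr P Q ^ 2 * (1 + ((Q.re ^ 2 + Q.im ^ 2 - (P.re ^ 2 + P.im ^ 2)) / (2 * cr P Q)) ^ 2) =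
      cr P Q ^ 2 + (Q.re ^ 2 + Q.im ^ 2 - (P.re ^ 2 + P.im ^ 2)) ^ 2 / 4 := by
    field_simp
    ring
  rw [h4]
  unfold cr
  ring

theorem side_me {τ : ℝ} {P Q : ℂ} (h : 0 < cr P Q) :
    sH P Q ^ 2 * (sK P Q * sL τ P Q) =
      ((P.re + Q.re) * (Q.re - P.re) + (P.im + Q.im) * (Q.im - P.im)) / (4 * τ) := by
  have h1 := C_norm_sub_pos h
  have hP : ‖P‖ ^ 2 = P.re ^ 2 + P.im ^ 2 := by
    rw [Complex.sq_norm, Complex.normSq_apply]; ring
  have hQ : ‖Q‖ ^ 2 = Q.re ^ 2 + Q.im ^ 2 := by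
    rw [Complex.sq_norm, Complex.normSq_apply]; ring
  unfold sH sK sL
  rw [hP, hQ]
  by_cases hτ : τ = 0
  · simp [hτ]
  · field_simp
    ring

theorem side_ee {τ : ℝ} {P Q : ℂ} (h : 0 < cr P Q) :
    sH P Q ^ 2 * sL τ P Q ^ 2 = ((Q.re - P.re) ^ 2 + (Q.im - P.im) ^ 2) / (4 * τ ^ 2) := by
  have h1 := C_norm_sub_pos h
  rw [← C_normSq_sub]
  unfold sH sL
  by_cases hτ : τ = 0
  · simp [hτ]
  · field_simp
    ring

/-- Norm of the image under `Am` in terms of the numbers of the side. -/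
theorem Am_normSq {τ : ℝ} (hτ : 0 < τ) {P Q : ℂ} (h : 0 < cr P Q) (w : ℂ) :
    (Am τ P Q w).re ^ 2 + (Am τ P Q w).im ^ 2 =
      sH P Q ^ 2 * (1 + sK P Q ^ 2) * w.re ^ 2 +
        2 * (sH P Q ^ 2 * (sK P Q * sL τ P Q)) * (w.re * w.im) +
          sH P Q ^ 2 * sL τ P Q ^ 2 * w.im ^ 2 := by
  rw [side_mm h, side_me h, side_ee h, Am_re, Am_im]
  field_simp
  ring

/-! ### parametrisation of a side -/

theorem Bm_seg {τ : ℝ} {P Q : ℂ} (h : 0 < cr P Q) (t : ℝ) :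
    Bm τ P Q (P + (t : ℂ) * (Q - P)) = ⟨1, 2 * τ * t - τ⟩ := by
  apply Complex.ext
  · rw [Bm_re]
    show _ = (1 : ℝ)
    rw [cr_add_right, cr_smul_right, cr_sub_right, cr_self, cr_add_left, cr_smul_left, cr_sub_left,
      cr_self]
    field_simp
    ring
  · rw [Bm_im]
    show _ = (2 * τ * t - τ : ℝ)
    rw [cr_add_right, cr_smul_right, cr_sub_right, cr_self, cr_add_left, cr_smul_left, cr_sub_left,
      cr_self]
    field_simp
    ring

theorem segInt_Bm {τ : ℝ} (hτ : 0 < τ) {P Q : ℂ} (h : 0 < cr P Q) (G : ℂ → ℝ) :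
    segInt P Q (fun z => G (Bm τ P Q z)) =
      dist P Q / (2 * τ) * ∫ y in (-τ)..τ, G ⟨1, y⟩ := by
  unfold segInt
  have h1 : (∫ t in (0 : ℝ)..1, G (Bm τ P Q (P + (t : ℂ) * (Q - P)))) =
      ∫ t in (0 : ℝ)..1, (fun y : ℝ => G ⟨1, y⟩) (2 * τ * t - τ) := by
    apply intervalIntegral.integral_congr
    intro t _
    simp only [Bm_seg h]
  rw [h1, intervalIntegral.integral_comp_mul_sub (fun y : ℝ => G ⟨1, y⟩)
    (by positivity : (2 * τ) ≠ 0) τ, smul_eq_mul]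
  have e1 : 2 * τ * 0 - τ = -τ := by ring
  have e2 : 2 * τ * 1 - τ = τ := by ring
  rw [e1, e2]
  field_simp

theorem segment_sub_Cn {P Q : ℂ} (h : 0 < cr P Q) : segment ℝ P Q ⊆ Cn P Q := by
  rintro z ⟨a, b, ha, hb, -, rfl⟩
  constructor
  · rw [Complex.real_smul, Complex.real_smul, cr_add_right, cr_smul_right, cr_smul_right, cr_self]
    nlinarith
  · rw [Complex.real_smul, Complex.real_smul, cr_add_left, cr_smul_left, cr_smul_left, cr_self]
    nlinarith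

/-! ### odd functions -/

theorem C_integral_odd {f : ℝ → ℝ} (hf : ∀ y, f (-y) = - f y) (a : ℝ) :
    ∫ y in (-a)..a, f y = 0 := by
  have h1 : ∫ y in (-a)..a, f (-y) = ∫ y in (-a)..a, f y := by
    rw [intervalIntegral.integral_comp_neg, neg_neg]
  have h2 : ∫ y in (-a)..a, f (-y) = - ∫ y in (-a)..a, f y := by
    rw [← intervalIntegral.integral_neg]
    exact intervalIntegral.integral_congr fun y _ => hf y
  linarith

theorem C_conj_mk (x y : ℝ) : (starRingEnd ℂ) ⟨x, y⟩ = ⟨x, -y⟩ := by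
  apply Complex.ext <;> simp

theorem Sym.C_re_even {n : ℕ} {U : ℂ → ℂ} (hU : Sym n U) (x y : ℝ) :
    (U ⟨x, -y⟩).re = (U ⟨x, y⟩).re := by
  rw [← C_conj_mk, hU.conj, Complex.conj_re]

theorem Sym.C_im_odd {n : ℕ} {U : ℂ → ℂ} (hU : Sym n U) (x y : ℝ) :
    (U ⟨x, -y⟩).im = - (U ⟨x, y⟩).im := by
  rw [← C_conj_mk, hU.conj, Complex.conj_im]

theorem C_continuous_mk (x : ℝ) : Continuous fun y : ℝ => (⟨x, y⟩ : ℂ) := by
  have : (fun y : ℝ => (⟨x, y⟩ : ℂ)) = fun y : ℝ => (x : ℂ) + (y : ℂ) * Complex.I := by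
    funext y
    apply Complex.ext <;> simp
  rw [this]
  fun_prop

theorem Sym.C_cont_re {n : ℕ} {U : ℂ → ℂ} (hU : Sym n U) : Continuous fun y : ℝ => (U ⟨1, y⟩).re :=
  Complex.continuous_re.comp (hU.smooth.continuous.comp (C_continuous_mk 1))

theorem Sym.C_cont_im {n : ℕ} {U : ℂ → ℂ} (hU : Sym n U) : Continuous fun y : ℝ => (U ⟨1, y⟩).im :=
  Complex.continuous_im.comp (hU.smooth.continuous.comp (C_continuous_mk 1))

section sym

variable {n : ℕ} {U : ℂ → ℂ}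

/-- Means of the transplanted field over a side. -/
theorem side_mean_re (hU : Sym n U) {τ : ℝ} (hτ : 0 < τ) {P Q : ℂ} (h : 0 < cr P Q)
    (hm : ∫ y in (-τ)..τ, (U ⟨1, y⟩).re = 2 * τ) :
    segInt P Q (fun z => (Wi τ U P Q z).re) = segInt P Q (fun z => z.re) := by
  have h1 := segInt_Bm hτ h (fun w => (Am τ P Q (U w)).re)
  have h2 : ∫ y in (-τ)..τ, (U ⟨1, y⟩).im = 0 := C_integral_odd (fun y => hU.C_im_odd 1 y) τ
  have h3 : ∫ y in (-τ)..τ, (Am τ P Q (U ⟨1, y⟩)).re = 2 * τ * ((P.re + Q.re) / 2) := by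
    have e1 : (fun y : ℝ => (Am τ P Q (U ⟨1, y⟩)).re) = fun y : ℝ =>
        ((P.re + Q.re) / 2) * (U ⟨1, y⟩).re + ((Q.re - P.re) / (2 * τ)) * (U ⟨1, y⟩).im := by
      funext y; rw [Am_re]; ring
    rw [e1, intervalIntegral.integral_add, intervalIntegral.integral_const_mul,
      intervalIntegral.integral_const_mul, hm, h2]
    · ring
    · exact (continuous_const.mul hU.C_cont_re).intervalIntegrable _ _
    · exact (continuous_const.mul hU.C_cont_im).intervalIntegrable _ _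
  unfold Wi
  rw [h1, h3]
  have h4 : segInt P Q (fun z => z.re) = dist P Q * ((P.re + Q.re) / 2) := by
    unfold segInt
    congr 1
    have e1 : (fun t : ℝ => (P + (t : ℂ) * (Q - P)).re) = fun t : ℝ =>
        P.re + t * (Q.re - P.re) := by
      funext t; simp
    rw [e1, intervalIntegral.integral_add (by simp) (by
      exact (continuous_id.mul continuous_const).intervalIntegrable _ _),
      intervalIntegral.integral_mul_const, integral_id]
    simp
    ring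
  rw [h4]
  field_simp

theorem side_mean_im (hU : Sym n U) {τ : ℝ} (hτ : 0 < τ) {P Q : ℂ} (h : 0 < cr P Q)
    (hm : ∫ y in (-τ)..τ, (U ⟨1, y⟩).re = 2 * τ) :
    segInt P Q (fun z => (Wi τ U P Q z).im) = segInt P Q (fun z => z.im) := by
  have h1 := segInt_Bm hτ h (fun w => (Am τ P Q (U w)).im)
  have h2 : ∫ y in (-τ)..τ, (U ⟨1, y⟩).im = 0 := C_integral_odd (fun y => hU.C_im_odd 1 y) τ
  have h3 : ∫ y in (-τ)..τ, (Am τ P Q (U ⟨1, y⟩)).im = 2 * τ * ((P.im + Q.im) / 2) := by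
    have e1 : (fun y : ℝ => (Am τ P Q (U ⟨1, y⟩)).im) = fun y : ℝ =>
        ((P.im + Q.im) / 2) * (U ⟨1, y⟩).re + ((Q.im - P.im) / (2 * τ)) * (U ⟨1, y⟩).im := by
      funext y; rw [Am_im]; ring
    rw [e1, intervalIntegral.integral_add, intervalIntegral.integral_const_mul,
      intervalIntegral.integral_const_mul, hm, h2]
    · ring
    · exact (continuous_const.mul hU.C_cont_re).intervalIntegrable _ _
    · exact (continuous_const.mul hU.C_cont_im).intervalIntegrable _ _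
  unfold Wi
  rw [h1, h3]
  have h4 : segInt P Q (fun z => z.im) = dist P Q * ((P.im + Q.im) / 2) := by
    unfold segInt
    congr 1
    have e1 : (fun t : ℝ => (P + (t : ℂ) * (Q - P)).im) = fun t : ℝ =>
        P.im + t * (Q.im - P.im) := by
      funext t; simp
    rw [e1, intervalIntegral.integral_add (by simp) (by
      exact (continuous_id.mul continuous_const).intervalIntegrable _ _),
      intervalIntegral.integral_mul_const, integral_id]
    simp
    ring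
  rw [h4]
  field_simp

/-- Square integral of the transplanted field over a side. -/
theorem side_sq (hU : Sym n U) {τ : ℝ} (hτ : 0 < τ) {P Q : ℂ} (h : 0 < cr P Q) :
    segInt P Q (fun z => (Wi τ U P Q z).re ^ 2) + segInt P Q (fun z => (Wi τ U P Q z).im ^ 2) =
      sH P Q ^ 3 * sL τ P Q * ((1 + sK P Q ^ 2) * (∫ y in (-τ)..τ, (U ⟨1, y⟩).re ^ 2) +
        sL τ P Q ^ 2 * ∫ y in (-τ)..τ, (U ⟨1, y⟩).im ^ 2) := by
  have h1 := segInt_Bm hτ h (fun w => (Am τ P Q (U w)).re ^ 2)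
  have h2 := segInt_Bm hτ h (fun w => (Am τ P Q (U w)).im ^ 2)
  have hcA : Continuous fun y : ℝ => Am τ P Q (U ⟨1, y⟩) :=
    (Am τ P Q).continuous.comp (hU.smooth.continuous.comp (C_continuous_mk 1))
  have i1 : IntervalIntegrable (fun y : ℝ => (Am τ P Q (U ⟨1, y⟩)).re ^ 2) volume (-τ) τ :=
    ((Complex.continuous_re.comp hcA).pow 2).intervalIntegrable _ _
  have i2 : IntervalIntegrable (fun y : ℝ => (Am τ P Q (U ⟨1, y⟩)).im ^ 2) volume (-τ) τ :=
    ((Complex.continuous_im.comp hcA).pow 2).intervalIntegrable _ _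
  unfold Wi
  rw [h1, h2, ← mul_add, ← intervalIntegral.integral_add i1 i2]
  have hodd : ∫ y in (-τ)..τ, (U ⟨1, y⟩).re * (U ⟨1, y⟩).im = 0 :=
    C_integral_odd (fun y => by rw [hU.C_re_even, hU.C_im_odd]; ring) τ
  have e1 : (∫ y in (-τ)..τ, ((Am τ P Q (U ⟨1, y⟩)).re ^ 2 + (Am τ P Q (U ⟨1, y⟩)).im ^ 2)) =
      sH P Q ^ 2 * (1 + sK P Q ^ 2) * (∫ y in (-τ)..τ, (U ⟨1, y⟩).re ^ 2) +
        sH P Q ^ 2 * sL τ P Q ^ 2 * ∫ y in (-τ)..τ, (U ⟨1, y⟩).im ^ 2 := by
    have e2 : (fun y : ℝ => (Am τ P Q (U ⟨1, y⟩)).re ^ 2 + (Am τ P Q (U ⟨1, y⟩)).im ^ 2) =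
        fun y : ℝ => (sH P Q ^ 2 * (1 + sK P Q ^ 2) * (U ⟨1, y⟩).re ^ 2 +
        2 * (sH P Q ^ 2 * (sK P Q * sL τ P Q)) * ((U ⟨1, y⟩).re * (U ⟨1, y⟩).im)) +
          sH P Q ^ 2 * sL τ P Q ^ 2 * (U ⟨1, y⟩).im ^ 2 := by
      funext y; exact Am_normSq hτ h _
    have c1 : IntervalIntegrable (fun y : ℝ => sH P Q ^ 2 * (1 + sK P Q ^ 2) * (U ⟨1, y⟩).re ^ 2)
        volume (-τ) τ := (continuous_const.mul (hU.C_cont_re.pow 2)).intervalIntegrable _ _
    have c2 : IntervalIntegrable (fun y : ℝ => 2 * (sH P Q ^ 2 * (sK P Q * sL τ P Q)) *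
        ((U ⟨1, y⟩).re * (U ⟨1, y⟩).im)) volume (-τ) τ :=
      (continuous_const.mul (hU.C_cont_re.mul hU.C_cont_im)).intervalIntegrable _ _
    have c3 : IntervalIntegrable (fun y : ℝ => sH P Q ^ 2 * sL τ P Q ^ 2 * (U ⟨1, y⟩).im ^ 2)
        volume (-τ) τ := (continuous_const.mul (hU.C_cont_im.pow 2)).intervalIntegrable _ _
    rw [e2, intervalIntegral.integral_add (c1.add c2) c3, intervalIntegral.integral_add c1 c2,
      intervalIntegral.integral_const_mul, intervalIntegral.integral_const_mul,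
      intervalIntegral.integral_const_mul, hodd]
    ring
  rw [e1, side_hl h]
  ring

end sym

/-! ### the field `id + θ v` -/

theorem Uth_re (v : ℂ → ℂ) (th y : ℝ) : (Uth v th ⟨1, y⟩).re = 1 + th * (v ⟨1, y⟩).re := by
  simp [Uth]

theorem Uth_im (v : ℂ → ℂ) (th y : ℝ) : (Uth v th ⟨1, y⟩).im = y + th * (v ⟨1, y⟩).im := by
  simp [Uth]

theorem Uth_mean {n : ℕ} {v : ℂ → ℂ} (hv : VV n v) (th : ℝ) :
    ∫ y in (-tauN n)..(tauN n), (Uth v th ⟨1, y⟩).re = 2 * tauN n := by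
  have e : (fun y : ℝ => (Uth v th ⟨1, y⟩).re) = fun y : ℝ => 1 + th * (v ⟨1, y⟩).re := by
    funext y; exact Uth_re v th y
  have c0 : IntervalIntegrable (fun _ : ℝ => (1 : ℝ)) volume (-tauN n) (tauN n) := by simp
  have c1 : IntervalIntegrable (fun y : ℝ => th * (v ⟨1, y⟩).re) volume
      (-tauN n) (tauN n) := (continuous_const.mul hv.sym.C_cont_re).intervalIntegrable _ _
  rw [e, intervalIntegral.integral_add c0 c1,
    intervalIntegral.integral_const_mul, hv.mean]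
  simp
  ring

theorem Uth_sq_re {n : ℕ} {v : ℂ → ℂ} (hv : VV n v) (th : ℝ) :
    ∫ y in (-tauN n)..(tauN n), (Uth v th ⟨1, y⟩).re ^ 2 =
      2 * tauN n + th ^ 2 * (datOf (tauN n) v).M1 := by
  have e : (fun y : ℝ => (Uth v th ⟨1, y⟩).re ^ 2) = fun y : ℝ =>
      (1 + (2 * th) * (v ⟨1, y⟩).re) + th ^ 2 * (v ⟨1, y⟩).re ^ 2 := by
    funext y; rw [Uth_re v th y]; ring
  have c1 : IntervalIntegrable (fun y : ℝ => (2 * th) * (v ⟨1, y⟩).re) volume
      (-tauN n) (tauN n) := (continuous_const.mul hv.sym.C_cont_re).intervalIntegrable _ _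
  have c2 : IntervalIntegrable (fun y : ℝ => th ^ 2 * (v ⟨1, y⟩).re ^ 2) volume
      (-tauN n) (tauN n) := (continuous_const.mul (hv.sym.C_cont_re.pow 2)).intervalIntegrable _ _
  have c0 : IntervalIntegrable (fun _ : ℝ => (1 : ℝ)) volume (-tauN n) (tauN n) := by simp
  rw [e, intervalIntegral.integral_add (c0.add c1) c2, intervalIntegral.integral_add c0 c1,
    intervalIntegral.integral_const_mul, intervalIntegral.integral_const_mul, hv.mean]
  simp only [datOf]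
  simp
  ring

theorem Uth_sq_im {n : ℕ} {v : ℂ → ℂ} (hv : VV n v) (th : ℝ) :
    ∫ y in (-tauN n)..(tauN n), (Uth v th ⟨1, y⟩).im ^ 2 =
      2 * tauN n ^ 3 / 3 + 2 * th * (datOf (tauN n) v).l + th ^ 2 * (datOf (tauN n) v).M2 := by
  have e : (fun y : ℝ => (Uth v th ⟨1, y⟩).im ^ 2) = fun y : ℝ =>
      (y ^ 2 + (2 * th) * (y * (v ⟨1, y⟩).im)) + th ^ 2 * (v ⟨1, y⟩).im ^ 2 := by
    funext y; rw [Uth_im v th y]; ring
  have c0 : IntervalIntegrable (fun y : ℝ => y ^ 2) volume (-tauN n) (tauN n) :=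
    (continuous_id.pow 2).intervalIntegrable _ _
  have c1 : IntervalIntegrable (fun y : ℝ => (2 * th) * (y * (v ⟨1, y⟩).im)) volume
      (-tauN n) (tauN n) :=
    (continuous_const.mul (continuous_id.mul hv.sym.C_cont_im)).intervalIntegrable _ _
  have c2 : IntervalIntegrable (fun y : ℝ => th ^ 2 * (v ⟨1, y⟩).im ^ 2) volume
      (-tauN n) (tauN n) := (continuous_const.mul (hv.sym.C_cont_im.pow 2)).intervalIntegrable _ _
  rw [e, intervalIntegral.integral_add (c0.add c1) c2, intervalIntegral.integral_add c0 c1,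
    intervalIntegral.integral_const_mul, intervalIntegral.integral_const_mul, integral_pow]
  simp only [datOf]
  norm_num
  ring

end Pool.Agent.NGN
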