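import Pool.Agent.NGN.C.Map
import Pool.Agent.NGN.CLip

/-!
# The transplanted field

MP_b1ddb4_an, project NGN, part C.
-/

set_option autoImplicit false

noncomputable section

namespace Pool.Agent.NGN

open Filter Topology Set MeasureTheory
open scoped NNReal

/-- The transplanted field on one cone. -/
def Wi (τ : ℝ) (U : ℂ → ℂ) (P Q z : ℂ) : ℂ := Am τ P Q (U (Bm τ P Q z))

open Classical in
/-- The transplanted field. -/
def WW (τ : ℝ) (U : ℂ → ℂ) {n : ℕ} (P : ZMod n → ℂ) (z : ℂ) : ℂ :=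
  if h : ∃ i, z ∈ Cn (P i) (P (i + 1)) then Wi τ U (P h.choose) (P (h.choose + 1)) z else 0

/-- On the two legs of the sector the field is a (common) real multiple of the position. -/
structure Legs (τ : ℝ) (U : ℂ → ℂ) (g : ℝ → ℝ) : Prop where
  up : ∀ t : ℝ, U ((t : ℂ) * (1 + (τ : ℂ) * Complex.I)) = (g t : ℂ) * (1 + (τ : ℂ) * Complex.I)
  down : ∀ t : ℝ, U ((t : ℂ) * (1 - (τ : ℂ) * Complex.I)) =
    (g t : ℂ) * (1 - (τ : ℂ) * Complex.I)

theorem Legs.zero {τ : ℝ} (hτ : 0 < τ) {U : ℂ → ℂ} {g : ℝ → ℝ} (h : Legs τ U g) : U 0 = 0 := by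
  have h1 := h.up 0
  have h2 := h.down 0
  simp only [Complex.ofReal_zero, zero_mul] at h1 h2
  rw [h1] at h2
  have h3 : (g 0 : ℂ) * ((τ : ℂ) * Complex.I) = 0 := by linear_combination h2 / 2
  have h4 : (g 0 : ℂ) = 0 := by
    rcases mul_eq_zero.1 h3 with h5 | h5
    · exact h5
    · rcases mul_eq_zero.1 h5 with h6 | h6
      · exact absurd h6 (by exact_mod_cast hτ.ne')
      · exact absurd h6 Complex.I_ne_zero
  rw [h1, h4, zero_mul]

theorem Bm_P {τ : ℝ} {P Q : ℂ} (h : 0 < cr P Q) (t : ℝ) :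
    Bm τ P Q ((t : ℂ) * P) = (t : ℂ) * (1 - (τ : ℂ) * Complex.I) := by
  have e1 : (cr P ((t : ℂ) * P) + cr ((t : ℂ) * P) Q) / cr P Q = t := by
    rw [cr_smul_right, cr_self, cr_smul_left]; field_simp; ring
  have e2 : τ * (cr P ((t : ℂ) * P) - cr ((t : ℂ) * P) Q) / cr P Q = -(t * τ) := by
    rw [cr_smul_right, cr_self, cr_smul_left]; field_simp; ring
  rw [Bm_apply, e1, e2]
  push_cast; ring

theorem Bm_Q {τ : ℝ} {P Q : ℂ} (h : 0 < cr P Q) (t : ℝ) :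
    Bm τ P Q ((t : ℂ) * Q) = (t : ℂ) * (1 + (τ : ℂ) * Complex.I) := by
  have e1 : (cr P ((t : ℂ) * Q) + cr ((t : ℂ) * Q) Q) / cr P Q = t := by
    rw [cr_smul_right, cr_smul_left, cr_self]; field_simp; ring
  have e2 : τ * (cr P ((t : ℂ) * Q) - cr ((t : ℂ) * Q) Q) / cr P Q = t * τ := by
    rw [cr_smul_right, cr_smul_left, cr_self]; field_simp; ring
  rw [Bm_apply, e1, e2]
  push_cast; ring

theorem Am_P {τ : ℝ} (hτ : 0 < τ) (P Q : ℂ) (t : ℝ) :
    Am τ P Q ((t : ℂ) * (1 - (τ : ℂ) * Complex.I)) = (t : ℂ) * P := by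
  have hτ' : (τ : ℂ) ≠ 0 := by exact_mod_cast hτ.ne'
  have e1 : ((t : ℂ) * (1 - (τ : ℂ) * Complex.I)).re = t := by simp
  have e2 : ((t : ℂ) * (1 - (τ : ℂ) * Complex.I)).im = - (t * τ) := by simp
  rw [Am_apply, e1, e2]
  push_cast
  field_simp
  ring

theorem Am_Q {τ : ℝ} (hτ : 0 < τ) (P Q : ℂ) (t : ℝ) :
    Am τ P Q ((t : ℂ) * (1 + (τ : ℂ) * Complex.I)) = (t : ℂ) * Q := by
  have hτ' : (τ : ℂ) ≠ 0 := by exact_mod_cast hτ.ne'
  have e1 : ((t : ℂ) * (1 + (τ : ℂ) * Complex.I)).re = t := by simp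
  have e2 : ((t : ℂ) * (1 + (τ : ℂ) * Complex.I)).im = t * τ := by simp
  rw [Am_apply, e1, e2]
  push_cast
  field_simp
  ring

theorem Wi_P {τ : ℝ} (hτ : 0 < τ) {U : ℂ → ℂ} {g : ℝ → ℝ} (hU : Legs τ U g) {P Q : ℂ}
    (h : 0 < cr P Q) (t : ℝ) : Wi τ U P Q ((t : ℂ) * P) = (g t : ℂ) * P := by
  unfold Wi
  rw [Bm_P h, hU.down, Am_P hτ]

theorem Wi_Q {τ : ℝ} (hτ : 0 < τ) {U : ℂ → ℂ} {g : ℝ → ℝ} (hU : Legs τ U g) {P Q : ℂ}
    (h : 0 < cr P Q) (t : ℝ) : Wi τ U P Q ((t : ℂ) * Q) = (g t : ℂ) * Q := by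
  unfold Wi
  rw [Bm_Q h, hU.up, Am_Q hτ]

section fan

variable {n : ℕ} {P : ZMod n → ℂ}

/-- A point in two closed cones is in none of the open cones. -/
theorem Cvx.not_OCn (hn : 3 ≤ n) (hP : Cvx P) {i j : ZMod n} (hij : i ≠ j) {z : ℂ}
    (hj : z ∈ Cn (P j) (P (j + 1))) : z ∉ OCn (P i) (P (i + 1)) := by
  intro hi
  have hcon : Continuous fun e : ℝ => z + (e : ℂ) * (P j + P (j + 1)) := by fun_prop
  have h0 : Tendsto (fun e : ℝ => z + (e : ℂ) * (P j + P (j + 1))) (𝓝[>] 0)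
      (𝓝 (z + ((0 : ℝ) : ℂ) * (P j + P (j + 1)))) :=
    (hcon.tendsto 0).mono_left nhdsWithin_le_nhds
  rw [Complex.ofReal_zero, zero_mul, add_zero] at h0
  have h1 : ∀ᶠ e : ℝ in 𝓝[>] 0, z + (e : ℂ) * (P j + P (j + 1)) ∈ OCn (P i) (P (i + 1)) :=
    h0.eventually ((isOpen_OCn _ _).mem_nhds hi)
  obtain ⟨e, he1, he2⟩ := (h1.and self_mem_nhdsWithin).exists
  exact Set.disjoint_left.1 (hP.disj hn hij) he1 (mem_Cn_add (hP.pos j) hj he2)

theorem Wi_ray {τ : ℝ} (hτ : 0 < τ) {U : ℂ → ℂ} {g : ℝ → ℝ} (hU : Legs τ U g) (hP : Cvx P)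
    {i : ZMod n} {z : ℂ} (hz : z ∈ Cn (P i) (P (i + 1))) (hz' : z ∉ OCn (P i) (P (i + 1))) :
    ∃ (a : ZMod n) (t : ℝ), 0 ≤ t ∧ z = (t : ℂ) * P a ∧
      Wi τ U (P i) (P (i + 1)) z = (g t : ℂ) * P a := by
  rcases Cn_cases (hP.pos i) hz with h | ⟨t, ht, h⟩ | ⟨t, ht, h⟩
  · exact absurd h hz'
  · exact ⟨i, t, ht, h, by rw [h, Wi_P hτ hU (hP.pos i)]⟩
  · exact ⟨i + 1, t, ht, h, by rw [h, Wi_Q hτ hU (hP.pos i)]⟩

theorem Cvx.ne_zero (hP : Cvx P) (i : ZMod n) : P i ≠ 0 := by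
  intro h
  have := hP.pos i
  rw [h, cr_zero_left] at this
  exact lt_irrefl _ this

theorem Wi_consistent (hn : 3 ≤ n) {τ : ℝ} (hτ : 0 < τ) {U : ℂ → ℂ} {g : ℝ → ℝ}
    (hU : Legs τ U g) (hP : Cvx P) {i j : ZMod n} {z : ℂ} (hi : z ∈ Cn (P i) (P (i + 1)))
    (hj : z ∈ Cn (P j) (P (j + 1))) :
    Wi τ U (P i) (P (i + 1)) z = Wi τ U (P j) (P (j + 1)) z := by
  by_cases hij : i = j
  · rw [hij]
  by_cases hz : z = 0
  · rw [hz]; simp [Wi, hU.zero hτ]
  obtain ⟨a, s, hs, ha, hWa⟩ := Wi_ray hτ hU hP hi (hP.not_OCn hn hij hj)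
  obtain ⟨b, t, ht, hb, hWb⟩ := Wi_ray hτ hU hP hj (hP.not_OCn hn (Ne.symm hij) hi)
  have hs' : 0 < s := by
    rcases hs.eq_or_lt with h | h
    · rw [← h] at ha; exact absurd (by simpa using ha) hz
    · exact h
  have ht' : 0 < t := by
    rcases ht.eq_or_lt with h | h
    · rw [← h] at hb; exact absurd (by simpa using hb) hz
    · exact h
  have hab : a = b := hP.ray_unique hs' ht' (by rw [← ha, ← hb])
  subst hab
  have hst : s = t := by
    have h1 : (s : ℂ) * P a = (t : ℂ) * P a := by rw [← ha, ← hb]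
    have h2 := mul_right_cancel₀ (hP.ne_zero a) h1
    exact_mod_cast h2
  rw [hWa, hWb, hst]

theorem WW_eq (hn : 3 ≤ n) {τ : ℝ} (hτ : 0 < τ) {U : ℂ → ℂ} {g : ℝ → ℝ}
    (hU : Legs τ U g) (hP : Cvx P) {i : ZMod n} {z : ℂ} (hi : z ∈ Cn (P i) (P (i + 1))) :
    WW τ U P z = Wi τ U (P i) (P (i + 1)) z := by
  have hex : ∃ i, z ∈ Cn (P i) (P (i + 1)) := ⟨i, hi⟩
  unfold WW
  rw [dif_pos hex]
  exact Wi_consistent hn hτ hU hP hex.choose_spec hi

theorem Wi_contDiff {τ : ℝ} {U : ℂ → ℂ} (hU : ContDiff ℝ 1 U) (P Q : ℂ) :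
    ContDiff ℝ 1 (Wi τ U P Q) :=
  (Am τ P Q).contDiff.comp (hU.comp (Bm τ P Q).contDiff)

/-- The transplanted field is Lipschitz on the polygon. -/
theorem WW_lipschitz [NeZero n] (hn : 3 ≤ n) {τ : ℝ} (hτ : 0 < τ) {U : ℂ → ℂ} {g : ℝ → ℝ}
    (hU : Legs τ U g) (hU1 : ContDiff ℝ 1 U) (hP : Cvx P) :
    ∃ L : ℝ≥0, LipschitzOnWith L (WW τ U P) (convexHull ℝ (range P)) := by
  apply exists_lipschitzOn_of_cover (convex_convexHull ℝ _) (C := fun i => Tr (P i) (P (i + 1)))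
    (fun i => isClosed_Tr _ _) (hP.hull_sub hn)
  intro i
  obtain ⟨L, hL⟩ := exists_lipschitzOn (Wi_contDiff (τ := τ) hU1 (P i) (P (i + 1)))
    (isCompact_Tr (hP.pos i)) (convex_Tr (hP.pos i))
  refine ⟨L, ?_⟩
  intro x hx y hy
  rw [WW_eq hn hτ hU hP (Tr_sub_Cn _ _ hx), WW_eq hn hτ hU hP (Tr_sub_Cn _ _ hy)]
  exact hL hx hy

end fan

/-! ### symmetric fields have the leg property -/

theorem tauN_cos {n : ℕ} (hn : 3 ≤ n) : 0 < Real.cos (Real.pi / n) := by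
  have hn' : (3 : ℝ) ≤ n := by exact_mod_cast hn
  apply Real.cos_pos_of_mem_Ioo
  constructor
  · have : 0 < Real.pi / n := by positivity
    linarith [Real.pi_pos]
  · rw [div_lt_div_iff₀ (by linarith) (by norm_num)]
    nlinarith [Real.pi_pos]

theorem C_omN_re (n : ℕ) : (omN n).re = Real.cos (2 * (Real.pi / n)) := by
  have : omN n = Complex.exp (((2 * (Real.pi / n) : ℝ) : ℂ) * Complex.I) := by
    unfold omN; congr 1; push_cast; ring
  rw [this, Complex.exp_ofReal_mul_I_re]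

theorem C_omN_im (n : ℕ) : (omN n).im = Real.sin (2 * (Real.pi / n)) := by
  have : omN n = Complex.exp (((2 * (Real.pi / n) : ℝ) : ℂ) * Complex.I) := by
    unfold omN; congr 1; push_cast; ring
  rw [this, Complex.exp_ofReal_mul_I_im]

theorem C_omN_mul {n : ℕ} (hn : 3 ≤ n) :
    omN n * (1 - (tauN n : ℂ) * Complex.I) = 1 + (tauN n : ℂ) * Complex.I := by
  have hc := tauN_cos hn
  have hcs := Real.sin_sq_add_cos_sq (Real.pi / n)
  have ht : tauN n * Real.cos (Real.pi / n) = Real.sin (Real.pi / n) := by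
    unfold tauN; rw [Real.tan_eq_sin_div_cos]; field_simp
  apply Complex.ext
  · have e1 : (omN n * (1 - (tauN n : ℂ) * Complex.I)).re =
        (omN n).re + (omN n).im * tauN n := by simp [Complex.mul_re]
    have e2 : (1 + (tauN n : ℂ) * Complex.I).re = 1 := by simp
    rw [e1, e2, C_omN_re, C_omN_im, Real.cos_two_mul, Real.sin_two_mul]
    have : 2 * Real.sin (Real.pi / n) * Real.cos (Real.pi / n) * tauN n =
        2 * Real.sin (Real.pi / n) ^ 2 := by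
      calc _ = 2 * Real.sin (Real.pi / n) * (tauN n * Real.cos (Real.pi / n)) := by ring
        _ = _ := by rw [ht]; ring
    rw [this]; linarith
  · have e1 : (omN n * (1 - (tauN n : ℂ) * Complex.I)).im =
        (omN n).im - (omN n).re * tauN n := by simp [Complex.mul_im]; ring
    have e2 : (1 + (tauN n : ℂ) * Complex.I).im = tauN n := by simp
    rw [e1, e2, C_omN_re, C_omN_im, Real.cos_two_mul, Real.sin_two_mul]
    have : Real.cos (Real.pi / n) ^ 2 * tauN n = Real.sin (Real.pi / n) * Real.cos (Real.pi / n) := by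
      calc _ = Real.cos (Real.pi / n) * (tauN n * Real.cos (Real.pi / n)) := by ring
        _ = _ := by rw [ht]; ring
    linear_combination (-2) * this

theorem Sym.legs {n : ℕ} (hn : 3 ≤ n) {U : ℂ → ℂ} (hU : Sym n U) :
    ∃ g : ℝ → ℝ, Legs (tauN n) U g := by
  refine ⟨fun t => (U ((t : ℂ) * (1 - (tauN n : ℂ) * Complex.I))).re, ?_⟩
  have hdown : ∀ t : ℝ, U ((t : ℂ) * (1 - (tauN n : ℂ) * Complex.I)) =
      ((U ((t : ℂ) * (1 - (tauN n : ℂ) * Complex.I))).re : ℂ) *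
        (1 - (tauN n : ℂ) * Complex.I) := by
    intro t
    set z : ℂ := (t : ℂ) * (1 - (tauN n : ℂ) * Complex.I) with hz
    have h1 : (starRingEnd ℂ) z = omN n * z := by
      rw [hz, mul_left_comm, C_omN_mul hn]
      simp
    have h2 : omN n * U z = (starRingEnd ℂ) (U z) := by
      rw [← hU.rot, ← h1, hU.conj]
    have h3 := congrArg Complex.im h2
    rw [Complex.mul_im, Complex.conj_im, C_omN_re, C_omN_im, Real.cos_two_mul, Real.sin_two_mul] at h3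
    have hc := tauN_cos hn
    have ht : tauN n * Real.cos (Real.pi / n) = Real.sin (Real.pi / n) := by
      unfold tauN; rw [Real.tan_eq_sin_div_cos]; field_simp
    have h4 : (U z).im = - (tauN n * (U z).re) := by
      have h5 : Real.cos (Real.pi / n) ^ 2 * ((U z).im + tauN n * (U z).re) = 0 := by
        have h6 : Real.sin (Real.pi / n) * Real.cos (Real.pi / n) =
            Real.cos (Real.pi / n) ^ 2 * tauN n := by rw [← ht]; ring
        linear_combination h3 / 2 - (U z).re * h6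
      rcases mul_eq_zero.1 h5 with h6 | h6
      · exact absurd h6 (by positivity)
      · linarith
    apply Complex.ext
    · simp
    · simp [h4, mul_comm]
  constructor
  · intro t
    have h1 : (t : ℂ) * (1 + (tauN n : ℂ) * Complex.I) =
        (starRingEnd ℂ) ((t : ℂ) * (1 - (tauN n : ℂ) * Complex.I)) := by
      simp
    rw [h1, hU.conj]
    conv_lhs => rw [hdown t]
    simp
  · exact hdown

/-- The field `id + θ v`. -/
def Uth (v : ℂ → ℂ) (th : ℝ) (z : ℂ) : ℂ := z + (th : ℂ) * v z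

theorem Uth_sym {n : ℕ} {v : ℂ → ℂ} (hv : Sym n v) (th : ℝ) : Sym n (Uth v th) where
  smooth := contDiff_id.add (contDiff_const.mul hv.smooth)
  rot z := by unfold Uth; rw [hv.rot]; ring
  conj z := by unfold Uth; rw [hv.conj]; simp

end Pool.Agent.NGN
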